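import Mathlib

/-!
# Two given bases: the gap principle for large prime exponents
-/

set_option autoImplicit false

namespace Pool.Agent.R476.TC

open Finset

/-- `a ^ m + τ b ^ n = c ^ q` with `b ^ n < a ^ m` and `τ = ± 1` -/
structure Rep (a b q : ℕ) (τ : ℤ) (m n c : ℕ) : Prop where
  m0 : 0 < m
  n0 : 0 < n
  lt : b ^ n < a ^ m
  eq : (a : ℤ) ^ m + τ * (b : ℤ) ^ n = (c : ℤ) ^ q

theorem pow_gap {m n q : ℕ} (hq : 1 ≤ q) (h : m < n) : m ^ q + n ^ (q - 1) ≤ n ^ q := by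
  obtain ⟨k, rfl⟩ : ∃ k, q = k + 1 := ⟨q - 1, by omega⟩
  rw [Nat.add_sub_cancel]
  calc m ^ (k + 1) + n ^ k = m * m ^ k + n ^ k := by rw [pow_succ, mul_comm]
    _ ≤ m * n ^ k + n ^ k := Nat.add_le_add_right
        (Nat.mul_le_mul_left _ (Nat.pow_le_pow_left h.le k)) _
    _ = (m + 1) * n ^ k := by ring
    _ ≤ n * n ^ k := Nat.mul_le_mul_right _ h
    _ = n ^ (k + 1) := by rw [pow_succ, mul_comm]

section

variable {a b q : ℕ} {τ : ℤ} {m n c m' n' c' : ℕ}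

/-- `a ^ m = a ^ (m % q) * (a ^ (m / q)) ^ q` -/
theorem pow_split (a m q : ℕ) : a ^ m = a ^ (m % q) * (a ^ (m / q)) ^ q := by
  rw [← pow_mul, ← pow_add]
  congr 1
  rw [mul_comm (m / q) q]
  exact (Nat.mod_add_div m q).symm

/-- the common value `W` -/
theorem W_eq (h : m % q = m' % q) :
    a ^ m * (a ^ (m' / q)) ^ q = a ^ m' * (a ^ (m / q)) ^ q := by
  conv_lhs => rw [pow_split a m q]
  conv_rhs => rw [pow_split a m' q]
  rw [h]
  ring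

/-- the difference of the `q`-th powers of `U = c X'` and `V = c' X` -/
theorem diff_eq (hr : Rep a b q τ m n c) (hr' : Rep a b q τ m' n' c') (h : m % q = m' % q) :
    ((c * a ^ (m' / q) : ℕ) : ℤ) ^ q - ((c' * a ^ (m / q) : ℕ) : ℤ) ^ q =
      τ * ((b : ℤ) ^ n * ((a : ℤ) ^ (m' / q)) ^ q - (b : ℤ) ^ n' * ((a : ℤ) ^ (m / q)) ^ q) := by
  have hW : (a : ℤ) ^ m * ((a : ℤ) ^ (m' / q)) ^ q = (a : ℤ) ^ m' * ((a : ℤ) ^ (m / q)) ^ q := by
    exact_mod_cast W_eq (a := a) h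
  push_cast
  rw [mul_pow, mul_pow, ← hr.eq, ← hr'.eq]
  linear_combination hW

theorem tau_cases (hτ : τ = 1 ∨ τ = -1) : τ * τ = 1 := by
  rcases hτ with rfl | rfl <;> norm_num

/-- the determinant vanishes only for equal solutions -/
theorem eq_of_det (ha : 2 ≤ a) (hb : 2 ≤ b) (hab : Nat.Coprime a b) (hτ : τ = 1 ∨ τ = -1)
    (hr : Rep a b q τ m n c) (hr' : Rep a b q τ m' n' c') (h : m % q = m' % q)
    (hq : 0 < q) (hd : c * a ^ (m' / q) = c' * a ^ (m / q)) : m = m' ∧ n = n' := by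
  have h1 := diff_eq hr hr' h
  rw [hd, sub_self] at h1
  have h2 : (b : ℤ) ^ n * ((a : ℤ) ^ (m' / q)) ^ q = (b : ℤ) ^ n' * ((a : ℤ) ^ (m / q)) ^ q := by
    rcases hτ with rfl | rfl <;> linarith
  have h3 : b ^ n * (a ^ (m' / q)) ^ q = b ^ n' * (a ^ (m / q)) ^ q := by exact_mod_cast h2
  have hcop : ∀ i j, Nat.Coprime (b ^ i) ((a ^ j) ^ q) := fun i j =>
    Nat.Coprime.pow_left _ (Nat.Coprime.pow_right _ (Nat.Coprime.pow_right _ hab.symm))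
  have h4 : b ^ n ∣ b ^ n' := (hcop n (m / q)).dvd_of_dvd_mul_right (Dvd.intro _ h3)
  have h5 : b ^ n' ∣ b ^ n := (hcop n' (m' / q)).dvd_of_dvd_mul_right (Dvd.intro _ h3.symm)
  have h6 : b ^ n = b ^ n' := Nat.dvd_antisymm h4 h5
  have h7 : n = n' := Nat.pow_right_injective hb h6
  rw [h6] at h3
  have h8 : (a ^ (m' / q)) ^ q = (a ^ (m / q)) ^ q :=
    Nat.eq_of_mul_eq_mul_left (Nat.pow_pos (by omega)) h3
  have h9 : a ^ (m' / q) = a ^ (m / q) := Nat.pow_left_injective hq.ne' h8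
  have h10 : m' / q = m / q := Nat.pow_right_injective ha h9
  refine ⟨?_, h7⟩
  rw [← Nat.mod_add_div m q, ← Nat.mod_add_div m' q, h, h10]

/-- the difference of `q`-th powers is at least the `(q-1)`-st power of the larger one -/
theorem max_pow_le {U V q : ℕ} (hq : 1 ≤ q) (h : U ≠ V) :
    (max U V) ^ (q - 1) ≤ ((U : ℤ) ^ q - (V : ℤ) ^ q).natAbs := by
  rcases lt_or_gt_of_ne h with h | h
  · have h1 := pow_gap hq h
    rw [max_eq_right h.le]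
    have h2 : (U : ℤ) ^ q + (V : ℤ) ^ (q - 1) ≤ (V : ℤ) ^ q := by exact_mod_cast h1
    zify
    rw [abs_sub_comm]
    exact le_trans (by linarith) (le_abs_self _)
  · have h1 := pow_gap hq h
    rw [max_eq_left h.le]
    have h2 : (V : ℤ) ^ q + (U : ℤ) ^ (q - 1) ≤ (U : ℤ) ^ q := by exact_mod_cast h1
    zify
    exact le_trans (by linarith) (le_abs_self _)

/-- `|U ^ q - V ^ q|` is at most the larger one of the two terms -/
theorem diff_le (hτ : τ = 1 ∨ τ = -1) (hr : Rep a b q τ m n c) (hr' : Rep a b q τ m' n' c')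
    (h : m % q = m' % q) :
    (((c * a ^ (m' / q) : ℕ) : ℤ) ^ q - ((c' * a ^ (m / q) : ℕ) : ℤ) ^ q).natAbs ≤
      max (b ^ n * (a ^ (m' / q)) ^ q) (b ^ n' * (a ^ (m / q)) ^ q) := by
  rw [diff_eq hr hr' h, Int.natAbs_mul]
  have h1 : τ.natAbs = 1 := by rcases hτ with rfl | rfl <;> rfl
  rw [h1, one_mul]
  have h2 : (b : ℤ) ^ n * ((a : ℤ) ^ (m' / q)) ^ q = ((b ^ n * (a ^ (m' / q)) ^ q : ℕ) : ℤ) := by
    push_cast; rfl
  have h3 : (b : ℤ) ^ n' * ((a : ℤ) ^ (m / q)) ^ q = ((b ^ n' * (a ^ (m / q)) ^ q : ℕ) : ℤ) := by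
    push_cast; rfl
  rw [h2, h3]
  omega

/-- upper bound for `U ^ q` -/
theorem U_le (hτ : τ = 1 ∨ τ = -1) (hr : Rep a b q τ m n c) (X : ℕ) :
    (c * X) ^ q ≤ 2 * (a ^ m * X ^ q) := by
  have h1 := hr.eq
  have h2 : (b : ℤ) ^ n < (a : ℤ) ^ m := by exact_mod_cast hr.lt
  have h3 : (0 : ℤ) ≤ (b : ℤ) ^ n := by positivity
  have h4 : (c : ℤ) ^ q ≤ 2 * (a : ℤ) ^ m := by
    rcases hτ with rfl | rfl <;> linarith
  have h5 : c ^ q ≤ 2 * a ^ m := by exact_mod_cast h4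
  rw [mul_pow]
  calc c ^ q * X ^ q ≤ 2 * a ^ m * X ^ q := Nat.mul_le_mul_right _ h5
    _ = _ := by ring

/-- lower bound for `U ^ q` -/
theorem U_ge (hτ : τ = 1 ∨ τ = -1) (hr : Rep a b q τ m n c) (X : ℕ) (h : 2 * b ^ n ≤ a ^ m) :
    a ^ m * X ^ q ≤ 2 * (c * X) ^ q := by
  have h1 := hr.eq
  have h2 : 2 * (b : ℤ) ^ n ≤ (a : ℤ) ^ m := by exact_mod_cast h
  have h3 : (0 : ℤ) ≤ (b : ℤ) ^ n := by positivity
  have h4 : (a : ℤ) ^ m ≤ 2 * (c : ℤ) ^ q := by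
    rcases hτ with rfl | rfl <;> linarith
  have h5 : a ^ m ≤ 2 * c ^ q := by exact_mod_cast h4
  rw [mul_pow]
  calc a ^ m * X ^ q ≤ 2 * c ^ q * X ^ q := Nat.mul_le_mul_right _ h5
    _ = _ := by ring

/-- the arithmetic of the unbalanced case -/
theorem arith1 {M M' B W X q : ℕ} (hq : 1 ≤ q) (hM : 0 < M)
    (hW : W = M * X) (hX : X ≤ M')
    (hB : B ^ q * M ^ 10 ≤ M ^ q) (hWp : 0 < W) (h : W ^ (q - 1) ≤ 2 ^ (q - 1) * (B * X) ^ q) :
    M ^ 9 ≤ 2 ^ (q - 1) * M' := by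
  have hXp : 0 < X := Nat.pos_of_ne_zero (by rintro rfl; simp at hW; omega)
  -- multiply by `M ^ q`
  have h1 : W ^ (q - 1) * M ^ q ≤ 2 ^ (q - 1) * B ^ q * W ^ q := by
    calc W ^ (q - 1) * M ^ q ≤ 2 ^ (q - 1) * (B * X) ^ q * M ^ q := Nat.mul_le_mul_right _ h
      _ = 2 ^ (q - 1) * B ^ q * (M * X) ^ q := by rw [mul_pow, mul_pow]; ring
      _ = _ := by rw [← hW]
  have h2 : M ^ q ≤ 2 ^ (q - 1) * B ^ q * W := by
    have h3 : W ^ q = W ^ (q - 1) * W := by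
      rw [← pow_succ, Nat.sub_add_cancel hq]
    rw [h3] at h1
    have h4 : W ^ (q - 1) * M ^ q ≤ W ^ (q - 1) * (2 ^ (q - 1) * B ^ q * W) := by
      calc _ ≤ _ := h1
        _ = _ := by ring
    exact Nat.le_of_mul_le_mul_left h4 (Nat.pow_pos hWp)
  have h3 : M ^ 10 * M ^ q ≤ 2 ^ (q - 1) * W * M ^ q := by
    calc M ^ 10 * M ^ q ≤ M ^ 10 * (2 ^ (q - 1) * B ^ q * W) := Nat.mul_le_mul_left _ h2
      _ = 2 ^ (q - 1) * W * (B ^ q * M ^ 10) := by ring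
      _ ≤ 2 ^ (q - 1) * W * M ^ q := Nat.mul_le_mul_left _ hB
  have h4 : M ^ 10 ≤ 2 ^ (q - 1) * W := Nat.le_of_mul_le_mul_right h3 (Nat.pow_pos hM)
  have h5 : M * M ^ 9 ≤ M * (2 ^ (q - 1) * M') := by
    calc M * M ^ 9 = M ^ 10 := by ring
      _ ≤ 2 ^ (q - 1) * W := h4
      _ = 2 ^ (q - 1) * (M * X) := by rw [hW]
      _ ≤ 2 ^ (q - 1) * (M * M') := Nat.mul_le_mul_left _ (Nat.mul_le_mul_left _ hX)
      _ = _ := by ring
  exact Nat.le_of_mul_le_mul_left h5 hM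

theorem X_le (ha : 2 ≤ a) (m q : ℕ) : (a ^ (m / q)) ^ q ≤ a ^ m := by
  rw [← pow_mul]
  exact Nat.pow_le_pow_right (by omega) (Nat.div_mul_le_self m q)

/-- the unbalanced gap principle -/
theorem gap_unbal (ha : 2 ≤ a) (hb : 2 ≤ b) (hab : Nat.Coprime a b) (hτ : τ = 1 ∨ τ = -1)
    (hq : 1 ≤ q) (hr : Rep a b q τ m n c) (hr' : Rep a b q τ m' n' c') (h : m % q = m' % q)
    (hM : 2 ^ q ≤ a ^ m) (hle : m ≤ m')
    (hu : (b ^ n) ^ q * (a ^ m) ^ 10 ≤ (a ^ m) ^ q)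
    (hu' : (b ^ n') ^ q * (a ^ m') ^ 10 ≤ (a ^ m') ^ q) (hne : (m, n) ≠ (m', n')) :
    (a ^ m) ^ 9 ≤ 2 ^ (q - 1) * a ^ m' := by
  obtain ⟨U, hU⟩ : ∃ U, U = c * a ^ (m' / q) := ⟨_, rfl⟩
  obtain ⟨V, hV⟩ : ∃ V, V = c' * a ^ (m / q) := ⟨_, rfl⟩
  have hUV : U ≠ V := by
    intro he
    obtain ⟨h1, h2⟩ := eq_of_det ha hb hab hτ hr hr' h (by omega) (by rw [← hU, ← hV]; exact he)
    exact hne (by rw [h1, h2])
  have h1 := max_pow_le hq hUV
  have h2 := diff_le hτ hr hr' h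
  rw [← hU, ← hV] at h2
  have hMM : a ^ m ≤ a ^ m' := Nat.pow_le_pow_right (by omega) hle
  have hMp : 0 < a ^ m := Nat.pow_pos (by omega)
  have hMp' : 0 < a ^ m' := Nat.pow_pos (by omega)
  have hXp : 0 < (a ^ (m / q)) ^ q := Nat.pow_pos (Nat.pow_pos (by omega))
  have hXp' : 0 < (a ^ (m' / q)) ^ q := Nat.pow_pos (Nat.pow_pos (by omega))
  -- `2 b ^ n ≤ a ^ m`
  have hb2 : ∀ {B M : ℕ}, 2 ^ q ≤ M → B ^ q * M ^ 10 ≤ M ^ q → 2 * B ≤ M := by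
    intro B M hM hB
    have h3 : (2 * B) ^ q ≤ M ^ q := by
      calc (2 * B) ^ q = B ^ q * 2 ^ q := by rw [mul_pow]; ring
        _ ≤ B ^ q * M := Nat.mul_le_mul_left _ hM
        _ ≤ B ^ q * M ^ 10 := Nat.mul_le_mul_left _ (Nat.le_self_pow (by norm_num) M)
        _ ≤ M ^ q := hB
    exact (Nat.pow_le_pow_iff_left (by omega)).1 h3
  have hW := W_eq (a := a) h
  obtain ⟨W, hWd⟩ : ∃ W, W = a ^ m * (a ^ (m' / q)) ^ q := ⟨_, rfl⟩
  have hWp : 0 < W := by rw [hWd]; exact Nat.mul_pos hMp hXp'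
  have h3 : W ≤ 2 * (max U V) ^ q := by
    rw [hWd]
    refine (U_ge hτ hr _ (hb2 hM hu)).trans ?_
    rw [← hU]
    exact Nat.mul_le_mul_left _ (Nat.pow_le_pow_left (le_max_left _ _) _)
  -- `W ^ (q-1) ≤ 2 ^ (q-1) * max ^ q`
  have h4 : W ^ (q - 1) ≤ 2 ^ (q - 1) *
      (max (b ^ n * (a ^ (m' / q)) ^ q) (b ^ n' * (a ^ (m / q)) ^ q)) ^ q := by
    calc W ^ (q - 1) ≤ (2 * (max U V) ^ q) ^ (q - 1) := Nat.pow_le_pow_left h3 _
      _ = 2 ^ (q - 1) * ((max U V) ^ (q - 1)) ^ q := by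
          rw [mul_pow, ← pow_mul, ← pow_mul, mul_comm q (q - 1)]
      _ ≤ _ := Nat.mul_le_mul_left _ (Nat.pow_le_pow_left (h1.trans h2) _)
  rcases max_choice (b ^ n * (a ^ (m' / q)) ^ q) (b ^ n' * (a ^ (m / q)) ^ q) with h5 | h5
  · rw [h5] at h4
    exact arith1 hq hMp hWd (X_le ha m' q) hu hWp h4
  · rw [h5] at h4
    have h6 := arith1 hq hMp' (W := W) (X := (a ^ (m / q)) ^ q) (by rw [hWd, hW])
      (X_le ha m q) hu' hWp h4
    calc (a ^ m) ^ 9 ≤ (a ^ m') ^ 9 := Nat.pow_le_pow_left hMM _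
      _ ≤ 2 ^ (q - 1) * a ^ m := h6
      _ ≤ _ := Nat.mul_le_mul_left _ hMM

/-- the arithmetic of the balanced case -/
theorem arith2 {M M' B D q : ℕ} (hq : 20 ≤ q) (hM : 0 < M)
    (hB : M ^ q < B ^ q * M ^ 10)
    (h : (B ^ 20) ≤ D * (M * M')) : M ^ 9 ≤ D * M' := by
  -- `M ^ (20 q) < B ^ (20 q) M ^ 200`
  have h1 : (M ^ q) ^ 20 ≤ (B ^ 20) ^ q * M ^ 200 := by
    calc (M ^ q) ^ 20 ≤ (B ^ q * M ^ 10) ^ 20 := Nat.pow_le_pow_left hB.le _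
      _ = (B ^ 20) ^ q * M ^ 200 := by
          rw [mul_pow, ← pow_mul, ← pow_mul, ← pow_mul, mul_comm q 20]
  have h2 : (M ^ q) ^ 20 ≤ (D * (M * M')) ^ q * M ^ 200 :=
    h1.trans (Nat.mul_le_mul_right _ (Nat.pow_le_pow_left h _))
  have h3 : M ^ 200 ≤ (M ^ q) ^ 10 := by
    rw [← pow_mul]
    exact Nat.pow_le_pow_right hM (by omega)
  have h4 : (M ^ q) ^ 10 * (M ^ 10) ^ q ≤ (M ^ q) ^ 10 * (D * (M * M')) ^ q := by
    calc (M ^ q) ^ 10 * (M ^ 10) ^ q = (M ^ q) ^ 20 := by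
          rw [← pow_mul, ← pow_mul, ← pow_mul, ← pow_add]; congr 1; ring
      _ ≤ (D * (M * M')) ^ q * M ^ 200 := h2
      _ ≤ (D * (M * M')) ^ q * (M ^ q) ^ 10 := Nat.mul_le_mul_left _ h3
      _ = _ := by ring
  have h5 : (M ^ 10) ^ q ≤ (D * (M * M')) ^ q :=
    Nat.le_of_mul_le_mul_left h4 (Nat.pow_pos (Nat.pow_pos hM))
  have h6 : M ^ 10 ≤ D * (M * M') := (Nat.pow_le_pow_iff_left (by omega)).1 h5
  have h7 : M * M ^ 9 ≤ M * (D * M') := by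
    calc M * M ^ 9 = M ^ 10 := by ring
      _ ≤ _ := h6
      _ = _ := by ring
  exact Nat.le_of_mul_le_mul_left h7 hM

/-- lifting the exponent: if `p ∣ U - V`, `p ∤ U` and `p ^ e ∣ U ^ q - V ^ q` then
`p ^ e ∣ q (U - V)` (`q` an odd prime) -/
theorem lte {p q e : ℕ} (hp : p.Prime) (hq : q.Prime) (hq2 : q ≠ 2) {U V : ℤ}
    (hUV : (p : ℤ) ∣ U - V) (hU : ¬ (p : ℤ) ∣ U) (he : (p : ℤ) ^ e ∣ U ^ q - V ^ q) :
    (p : ℤ) ^ e ∣ q * (U - V) := by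
  have hp' : Prime (p : ℤ) := Nat.prime_iff_prime_int.1 hp
  by_cases hpq : p = q
  · subst hpq
    have hodd : Odd p := hp.odd_of_ne_two hq2
    have h1 := Int.emultiplicity_pow_sub_pow hp hodd hUV hU p
    rw [pow_dvd_iff_le_emultiplicity] at he ⊢
    have h2 : emultiplicity p p = 1 :=
      (Nat.finiteMultiplicity_iff.2 ⟨hp.ne_one, hp.pos⟩).emultiplicity_self
    have h3 : emultiplicity (p : ℤ) (p : ℤ) = 1 := by
      rw [Int.natCast_emultiplicity, h2]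
    rw [h1, h2] at he
    rw [emultiplicity_mul hp', h3, add_comm]
    exact he
  · -- the cofactor is prime to `p`
    have h1 : (∑ i ∈ range q, U ^ i * V ^ (q - 1 - i)) * (U - V) = U ^ q - V ^ q :=
      (Commute.all U V).geom_sum₂_mul q
    have h2 : ¬ (p : ℤ) ∣ ∑ i ∈ range q, U ^ i * V ^ (q - 1 - i) := by
      refine not_dvd_geom_sum₂ hp' hUV hU ?_
      intro h3
      have h4 : p ∣ q := by exact_mod_cast h3
      exact hpq ((Nat.prime_dvd_prime_iff_eq hp hq).1 h4)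
    rw [← h1] at he
    exact (hp'.pow_dvd_of_dvd_mul_left e h2 he).mul_left _

/-- the part of `b` composed of the primes of `T` -/
def part (b : ℕ) (T : Finset ℕ) : ℕ := ∏ p ∈ T, p ^ b.factorization p

theorem not_dvd_c (hab : Nat.Coprime a b) (hq : q ≠ 0) (hr : Rep a b q τ m n c) {p : ℕ}
    (hp : p.Prime) (hpb : p ∣ b) : ¬ p ∣ c := by
  intro h
  have h1 : ¬ p ∣ a := fun h2 => by
    have h3 := Nat.dvd_gcd h2 hpb
    rw [hab] at h3
    exact hp.one_lt.ne' (Nat.dvd_one.1 h3)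
  have h4 : (p : ℤ) ∣ τ * (b : ℤ) ^ n :=
    Dvd.dvd.mul_left (dvd_pow (Int.natCast_dvd_natCast.2 hpb) hr.n0.ne') _
  have h5 : (p : ℤ) ∣ (c : ℤ) ^ q := dvd_pow (Int.natCast_dvd_natCast.2 h) hq
  rw [← hr.eq] at h5
  have h6 : (p : ℤ) ∣ (a : ℤ) ^ m := (Int.dvd_add_left h4).1 h5
  have h7 : p ∣ a ^ m := by exact_mod_cast h6
  exact h1 (hp.dvd_of_dvd_pow h7)

/-- the balanced gap principle -/
theorem gap_bal (ha : 2 ≤ a) (hb : 2 ≤ b) (hab : Nat.Coprime a b) (hτ : τ = 1 ∨ τ = -1)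
    (hq : q.Prime) (hq20 : 20 ≤ q) (hr : Rep a b q τ m n c) (hr' : Rep a b q τ m' n' c')
    (h : m % q = m' % q) (hle : m ≤ m')
    (hu : (a ^ m) ^ q < (b ^ n) ^ q * (a ^ m) ^ 10)
    (hu' : (a ^ m') ^ q < (b ^ n') ^ q * (a ^ m') ^ 10) (hne : (m, n) ≠ (m', n'))
    (T : Finset ℕ) (hT : T ⊆ b.primeFactors) (hTb : b ^ 20 ≤ part b T ^ q)
    (hc : ∀ p ∈ T, (p : ℤ) ∣ ((c * a ^ (m' / q) : ℕ) : ℤ) - ((c' * a ^ (m / q) : ℕ) : ℤ)) :
    (a ^ m) ^ 9 ≤ 2 * q ^ q * a ^ m' := by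
  have hq1 : 1 ≤ q := by omega
  obtain ⟨U, hU⟩ : ∃ U, U = c * a ^ (m' / q) := ⟨_, rfl⟩
  obtain ⟨V, hV⟩ : ∃ V, V = c' * a ^ (m / q) := ⟨_, rfl⟩
  have hUV : U ≠ V := by
    intro he
    obtain ⟨h1, h2⟩ := eq_of_det ha hb hab hτ hr hr' h (by omega) (by rw [← hU, ← hV]; exact he)
    exact hne (by rw [h1, h2])
  have hMM : a ^ m ≤ a ^ m' := Nat.pow_le_pow_right (by omega) hle
  have hMp : 0 < a ^ m := Nat.pow_pos (by omega)
  have hMp' : 0 < a ^ m' := Nat.pow_pos (by omega)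
  obtain ⟨μ, hμ⟩ : ∃ μ, μ = min n n' := ⟨_, rfl⟩
  have hd := diff_eq hr hr' h
  rw [← hU, ← hV] at hd hc
  have hbμ : (b : ℤ) ^ μ ∣ (U : ℤ) ^ q - (V : ℤ) ^ q := by
    rw [hd]
    refine Dvd.dvd.mul_left (dvd_sub ?_ ?_) _
    · exact (pow_dvd_pow _ (by rw [hμ]; exact min_le_left _ _)).mul_right _
    · exact (pow_dvd_pow _ (by rw [hμ]; exact min_le_right _ _)).mul_right _
  have hdiv : ((part b T ^ μ : ℕ) : ℤ) ∣ q * ((U : ℤ) - V) := by
    unfold part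
    rw [← Finset.prod_pow]
    push_cast
    refine Finset.prod_dvd_of_coprime ?_ ?_
    · intro p hp p' hp' hpp
      refine IsCoprime.pow (IsCoprime.pow ?_)
      rw [Nat.isCoprime_iff_coprime]
      exact (Nat.coprime_primes (Nat.prime_of_mem_primeFactors (hT hp))
        (Nat.prime_of_mem_primeFactors (hT hp'))).2 hpp
    · intro p hp
      have hpp := Nat.prime_of_mem_primeFactors (hT hp)
      have hpb := Nat.dvd_of_mem_primeFactors (hT hp)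
      have hpa : ¬ p ∣ a := fun h2 => by
        have h3 := Nat.dvd_gcd h2 hpb
        rw [hab] at h3
        exact hpp.one_lt.ne' (Nat.dvd_one.1 h3)
      rw [← pow_mul]
      refine lte hpp hq (by omega) (hc p hp) ?_ ?_
      · intro h3
        have h4 : p ∣ U := by exact_mod_cast h3
        rw [hU] at h4
        rcases (Nat.Prime.dvd_mul hpp).1 h4 with h5 | h5
        · exact not_dvd_c hab (by omega) hr hpp hpb h5
        · exact hpa (hpp.dvd_of_dvd_pow h5)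
      · refine dvd_trans ?_ hbμ
        rw [pow_mul]
        refine pow_dvd_pow_of_dvd ?_ _
        exact_mod_cast Nat.ordProj_dvd b p
  -- sizes
  have hsz : part b T ^ μ ≤ q * max U V := by
    have h3 : ((q : ℤ) * ((U : ℤ) - V)) ≠ 0 := by
      refine mul_ne_zero (by exact_mod_cast (by omega : q ≠ 0)) ?_
      intro h4
      exact hUV (by exact_mod_cast sub_eq_zero.1 h4)
    have h4 := Int.natAbs_dvd_natAbs.2 hdiv
    rw [Int.natAbs_natCast, Int.natAbs_mul, Int.natAbs_natCast] at h4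
    have h5 := Nat.le_of_dvd (by
      rw [← Int.natAbs_natCast q, ← Int.natAbs_mul]
      exact Int.natAbs_pos.2 h3) h4
    refine h5.trans (Nat.mul_le_mul_left _ ?_)
    omega
  have hW := W_eq (a := a) h
  have hmax : (max U V) ^ q ≤ 2 * (a ^ m * a ^ m') := by
    rcases max_choice U V with h3 | h3
    · rw [h3, hU]
      exact (U_le hτ hr _).trans
        (Nat.mul_le_mul_left _ (Nat.mul_le_mul_left _ (X_le ha m' q)))
    · rw [h3, hV]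
      refine (U_le hτ hr' _).trans ?_
      rw [← hW]
      exact Nat.mul_le_mul_left _ (Nat.mul_le_mul_left _ (X_le ha m' q))
  have key : (b ^ μ) ^ 20 ≤ 2 * q ^ q * (a ^ m * a ^ m') := by
    calc (b ^ μ) ^ 20 = (b ^ 20) ^ μ := by rw [← pow_mul, ← pow_mul, mul_comm]
      _ ≤ (part b T ^ q) ^ μ := Nat.pow_le_pow_left hTb _
      _ = (part b T ^ μ) ^ q := by rw [← pow_mul, ← pow_mul, mul_comm]
      _ ≤ (q * max U V) ^ q := Nat.pow_le_pow_left hsz _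
      _ = q ^ q * (max U V) ^ q := by rw [mul_pow]
      _ ≤ q ^ q * (2 * (a ^ m * a ^ m')) := Nat.mul_le_mul_left _ hmax
      _ = _ := by ring
  rcases min_choice n n' with h3 | h3
  · rw [hμ, h3] at key
    exact arith2 hq20 hMp hu key
  · rw [hμ, h3] at key
    have h4 := arith2 (M' := a ^ m) hq20 hMp' hu' (by rw [mul_comm (a ^ m') (a ^ m)]; exact key)
    calc (a ^ m) ^ 9 ≤ (a ^ m') ^ 9 := Nat.pow_le_pow_left hMM _
      _ ≤ 2 * q ^ q * a ^ m := h4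
      _ ≤ _ := Nat.mul_le_mul_left _ hMM

end

end Pool.Agent.R476.TC
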