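import Mathlib
import Pool.Agent.TH876.PW.Classes
import Pool.Agent.R476.TC.Gap

/-!
# Two given bases: the count for one large prime exponent
-/

set_option autoImplicit false

namespace Pool.Agent.R476.TC

open Finset

/-- a subset of given size with a large product -/
theorem sel (S : Finset ℕ) (w : ℕ → ℕ) (hw : ∀ p ∈ S, 1 ≤ w p) (d t : ℕ) (h : t + d = S.card) :
    ∃ T ⊆ S, T.card = t ∧ (∏ p ∈ S, w p) ^ t ≤ (∏ p ∈ T, w p) ^ S.card := by
  classical
  induction d generalizing t with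
  | zero => exact ⟨S, Subset.refl _, by omega, by rw [show t = S.card by omega]⟩
  | succ d ih =>
    obtain ⟨T, hTS, hTc, hT⟩ := ih (t + 1) (by omega)
    obtain ⟨p0, hp0, hmin⟩ := T.exists_min_image w (card_pos.1 (by omega))
    refine ⟨T.erase p0, (erase_subset _ _).trans hTS, by rw [card_erase_of_mem hp0]; omega, ?_⟩
    have h1 : w p0 * ∏ p ∈ T.erase p0, w p = ∏ p ∈ T, w p := mul_prod_erase T w hp0
    have h2 : w p0 ^ (t + 1) ≤ ∏ p ∈ T, w p := by
      rw [← hTc, ← prod_const]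
      exact prod_le_prod' fun p hp => hmin p hp
    obtain ⟨P, hP⟩ : ∃ P, P = ∏ p ∈ T.erase p0, w p := ⟨_, rfl⟩
    obtain ⟨Q, hQ⟩ : ∃ Q, Q = ∏ p ∈ T, w p := ⟨_, rfl⟩
    obtain ⟨W, hW⟩ : ∃ W, W = ∏ p ∈ S, w p := ⟨_, rfl⟩
    have hQ0 : 0 < Q := by
      rw [hQ]
      exact prod_pos fun p hp => hw p (hTS hp)
    rw [← hP] at h1 ⊢
    rw [← hQ] at h1 h2 hT
    rw [← hW] at hT ⊢
    -- `Q ^ t ≤ P ^ (t + 1)`
    have h3 : Q ^ t ≤ P ^ (t + 1) := by
      have h4 : Q * Q ^ t ≤ Q * P ^ (t + 1) := by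
        calc Q * Q ^ t = Q ^ (t + 1) := by rw [pow_succ, mul_comm]
          _ = w p0 ^ (t + 1) * P ^ (t + 1) := by rw [← h1, mul_pow]
          _ ≤ Q * P ^ (t + 1) := Nat.mul_le_mul_right _ h2
      exact Nat.le_of_mul_le_mul_left h4 hQ0
    have h5 : (W ^ t) ^ (t + 1) ≤ (P ^ S.card) ^ (t + 1) := by
      calc (W ^ t) ^ (t + 1) = (W ^ (t + 1)) ^ t := by rw [← pow_mul, ← pow_mul, mul_comm]
        _ ≤ (Q ^ S.card) ^ t := Nat.pow_le_pow_left hT _
        _ = (Q ^ t) ^ S.card := by rw [← pow_mul, ← pow_mul, mul_comm]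
        _ ≤ (P ^ (t + 1)) ^ S.card := Nat.pow_le_pow_left h3 _
        _ = (P ^ S.card) ^ (t + 1) := by rw [← pow_mul, ← pow_mul, mul_comm]
    exact (Nat.pow_le_pow_iff_left (by omega)).1 h5

theorem pow20 {q : ℕ} (hq : 200 ≤ q) : q ^ 20 ≤ 2 ^ q := by
  induction q, hq using Nat.le_induction with
  | base => norm_num
  | succ q hq ih =>
    have h1 : (200 * (q + 1)) ^ 20 ≤ (201 * q) ^ 20 := Nat.pow_le_pow_left (by omega) _
    have h2 : 200 ^ 20 * (q + 1) ^ 20 ≤ 200 ^ 20 * (2 * q ^ 20) := by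
      calc 200 ^ 20 * (q + 1) ^ 20 = (200 * (q + 1)) ^ 20 := by rw [mul_pow]
        _ ≤ (201 * q) ^ 20 := h1
        _ = 201 ^ 20 * q ^ 20 := by rw [mul_pow]
        _ ≤ (2 * 200 ^ 20) * q ^ 20 := Nat.mul_le_mul_right _ (by norm_num)
        _ = _ := by ring
    have h3 := Nat.le_of_mul_le_mul_left h2 (by norm_num)
    calc (q + 1) ^ 20 ≤ 2 * q ^ 20 := h3
      _ ≤ 2 * 2 ^ q := Nat.mul_le_mul_left _ ih
      _ = 2 ^ (q + 1) := by rw [pow_succ, mul_comm]

/-- the primes of `b` that are used -/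
theorem exists_T {b q : ℕ} (hb : 2 ≤ b) (hq : 200 ≤ q) :
    ∃ T ⊆ b.primeFactors, b ^ 20 ≤ part b T ^ q ∧
      q ^ T.card ≤ q * 2 ^ b.primeFactors.card := by
  obtain ⟨w, hw⟩ : ∃ w, w = b.primeFactors.card := ⟨_, rfl⟩
  have hw0 : 0 < w := by
    rw [hw, card_pos, Nat.nonempty_primeFactors]
    omega
  have hself : part b b.primeFactors = b := by
    have := Nat.prod_factorization_pow_eq_self (n := b) (by omega)
    unfold Finsupp.prod at this
    rw [Nat.support_factorization] at this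
    exact this
  obtain ⟨s, hs⟩ : ∃ s, s = 20 * w / q := ⟨_, rfl⟩
  have hqs : q * s ≤ 20 * w := by rw [hs]; exact Nat.mul_div_le _ _
  have hqs1 : 20 * w < q * (s + 1) := by
    rw [hs]
    exact Nat.lt_mul_div_succ _ (by omega)
  have hpow : q ^ s ≤ 2 ^ w := by
    have h1 : (q ^ s) ^ 20 ≤ (2 ^ w) ^ 20 := by
      calc (q ^ s) ^ 20 = (q ^ 20) ^ s := by rw [← pow_mul, ← pow_mul, mul_comm]
        _ ≤ (2 ^ q) ^ s := Nat.pow_le_pow_left (pow20 hq) _
        _ = 2 ^ (q * s) := by rw [← pow_mul]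
        _ ≤ 2 ^ (20 * w) := Nat.pow_le_pow_right (by norm_num) hqs
        _ = _ := by rw [← pow_mul, mul_comm]
    exact (Nat.pow_le_pow_iff_left (by norm_num)).1 h1
  by_cases hc : s + 1 ≤ w
  · obtain ⟨T, hT1, hT2, hT3⟩ := sel b.primeFactors (fun p => p ^ b.factorization p)
      (fun p hp => Nat.one_le_pow _ _ (Nat.prime_of_mem_primeFactors hp).pos) (w - (s + 1)) (s + 1)
      (by omega)
    refine ⟨T, hT1, ?_, ?_⟩
    · change (part b b.primeFactors) ^ (s + 1) ≤ (part b T) ^ _ at hT3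
      rw [hself, ← hw] at hT3
      have h1 : (b ^ 20) ^ w ≤ (part b T ^ q) ^ w := by
        calc (b ^ 20) ^ w = b ^ (20 * w) := by rw [← pow_mul]
          _ ≤ b ^ (q * (s + 1)) := Nat.pow_le_pow_right (by omega) hqs1.le
          _ = (b ^ (s + 1)) ^ q := by rw [← pow_mul, mul_comm]
          _ ≤ (part b T ^ w) ^ q := Nat.pow_le_pow_left hT3 _
          _ = (part b T ^ q) ^ w := by rw [← pow_mul, ← pow_mul, mul_comm]
      exact (Nat.pow_le_pow_iff_left (by omega)).1 h1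
    · rw [hT2, ← hw, pow_succ, mul_comm]
      exact Nat.mul_le_mul_left _ hpow
  · refine ⟨b.primeFactors, Subset.refl _, ?_, ?_⟩
    · rw [hself]
      exact Nat.pow_le_pow_right (by omega) (by omega)
    · rw [← hw]
      calc q ^ w ≤ q ^ (s + 1) := Nat.pow_le_pow_right (by omega) (by omega)
        _ = q * q ^ s := by rw [pow_succ, mul_comm]
        _ ≤ _ := Nat.mul_le_mul_left _ hpow

theorem two_qq {q : ℕ} (hq : 1 ≤ q) : 2 * q ^ q ≤ 2 ^ (q * q) := by
  have h1 : q ≤ 2 ^ (q - 1) := by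
    have := Nat.lt_two_pow_self (n := q - 1)
    omega
  calc 2 * q ^ q ≤ 2 * (2 ^ (q - 1)) ^ q := Nat.mul_le_mul_left _ (Nat.pow_le_pow_left h1 _)
    _ = 2 ^ ((q - 1) * q + 1) := by rw [← pow_mul, pow_succ, mul_comm]
    _ ≤ 2 ^ (q * q) := by
        refine Nat.pow_le_pow_right (by norm_num) ?_
        obtain ⟨k, rfl⟩ : ∃ k, q = k + 1 := ⟨q - 1, by omega⟩
        rw [Nat.add_sub_cancel]
        nlinarith

/-- from the gap principle to logarithms -/
theorem log_ne {a m m' D : ℕ} (ha : 2 ≤ a) (hm : 0 < m) (hD : D ≤ a ^ m)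
    (h : (a ^ m) ^ 9 ≤ D * a ^ m') : Nat.log 2 m ≠ Nat.log 2 m' := by
  have h1 : a ^ m * (a ^ m) ^ 8 ≤ a ^ m * a ^ m' := by
    calc a ^ m * (a ^ m) ^ 8 = (a ^ m) ^ 9 := by ring
      _ ≤ D * a ^ m' := h
      _ ≤ _ := Nat.mul_le_mul_right _ hD
  have h2 := Nat.le_of_mul_le_mul_left h1 (Nat.pow_pos (by omega))
  rw [← pow_mul] at h2
  have h3 : m * 8 ≤ m' := (Nat.pow_le_pow_iff_right (by omega)).1 h2
  have h4 : Nat.log 2 (m * 2) = Nat.log 2 m + 1 := Nat.log_mul_base (by norm_num) (by omega)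
  have h5 : Nat.log 2 (m * 2) ≤ Nat.log 2 m' := Nat.log_mono_right (by omega)
  omega

/-- the label of a solution at a prime of `b` -/
noncomputable def lbl (a q : ℕ) (m c p : ℕ) : ℕ :=
  ((c : ZMod p) * ((a ^ (m / q) : ℕ) : ZMod p)⁻¹).val

theorem lbl_pow {a b q : ℕ} {τ : ℤ} {m n c : ℕ} (hab : Nat.Coprime a b)
    (hr : Rep a b q τ m n c) {p : ℕ} (hp : p.Prime) (hpb : p ∣ b) :
    ((lbl a q m c p : ℕ) : ZMod p) ^ q = ((a ^ (m % q) : ℕ) : ZMod p) := by
  have : Fact p.Prime := ⟨hp⟩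
  have hX : ((a ^ (m / q) : ℕ) : ZMod p) ≠ 0 := by
    intro h
    rw [ZMod.natCast_eq_zero_iff] at h
    have h2 := Nat.dvd_gcd (hp.dvd_of_dvd_pow h) hpb
    rw [hab] at h2
    exact hp.one_lt.ne' (Nat.dvd_one.1 h2)
  have h1 : ((c : ℕ) : ZMod p) ^ q = ((a ^ m : ℕ) : ZMod p) := by
    have h2 := congrArg (fun t : ℤ => (t : ZMod p)) hr.eq
    push_cast at h2
    have h3 : ((b : ℕ) : ZMod p) = 0 := (ZMod.natCast_eq_zero_iff b p).2 hpb
    rw [h3, zero_pow hr.n0.ne', mul_zero, add_zero] at h2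
    push_cast
    exact h2.symm
  unfold lbl
  rw [ZMod.natCast_val, ZMod.cast_id, mul_pow, h1, pow_split a m q]
  push_cast at hX ⊢
  rw [mul_assoc, ← mul_pow, mul_inv_cancel₀ hX, one_pow, mul_one]

theorem lbl_eq {a b q : ℕ} {m m' c c' : ℕ} (hab : Nat.Coprime a b) {p : ℕ} (hp : p.Prime)
    (hpb : p ∣ b) (h : lbl a q m c p = lbl a q m' c' p) :
    (p : ℤ) ∣ ((c * a ^ (m' / q) : ℕ) : ℤ) - ((c' * a ^ (m / q) : ℕ) : ℤ) := by
  have : Fact p.Prime := ⟨hp⟩
  have hX : ∀ j, ((a ^ j : ℕ) : ZMod p) ≠ 0 := by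
    intro j h
    rw [ZMod.natCast_eq_zero_iff] at h
    have h2 := Nat.dvd_gcd (hp.dvd_of_dvd_pow h) hpb
    rw [hab] at h2
    exact hp.one_lt.ne' (Nat.dvd_one.1 h2)
  unfold lbl at h
  have h5 := ZMod.val_injective p h
  rw [← div_eq_mul_inv, ← div_eq_mul_inv, div_eq_div_iff (hX _) (hX _)] at h5
  rw [← ZMod.intCast_zmod_eq_zero_iff_dvd]
  push_cast at h5 ⊢
  rw [sub_eq_zero]
  exact h5

/-- the count for one large prime exponent -/
theorem count_large {a b q : ℕ} {τ : ℤ} (ha : 2 ≤ a) (hb : 2 ≤ b) (hab : Nat.Coprime a b)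
    (hτ : τ = 1 ∨ τ = -1) (hq : q.Prime) (hq200 : 200 ≤ q) (N : ℕ) (F : Finset (ℕ × ℕ))
    (hF : ∀ x ∈ F, x.1 ≤ N ∧ ∃ c, Rep a b q τ x.1 x.2 c) :
    F.card ≤ q ^ 4 + 2 * q ^ 2 * 2 ^ b.primeFactors.card * (Nat.log 2 N + 1) := by
  classical
  have hq1 : 1 ≤ q := by omega
  obtain ⟨T, hT1, hT2, hT3⟩ := exists_T hb hq200
  choose! c hc using fun x hx => (hF x hx).2
  -- small solutions
  have hS : (F.filter (fun x => a ^ x.1 < 2 * q ^ q)).card ≤ q ^ 4 := by
    have h1 : F.filter (fun x => a ^ x.1 < 2 * q ^ q) ⊆ range (q * q) ×ˢ range (q * q) := by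
      intro x hx
      rw [mem_filter] at hx
      have h2 : a ^ x.1 < 2 ^ (q * q) := hx.2.trans_le (two_qq hq1)
      have h3 : b ^ x.2 < 2 ^ (q * q) := (hc x hx.1).lt.trans h2
      rw [mem_product, mem_range, mem_range]
      constructor
      · exact (Nat.pow_lt_pow_iff_right (by norm_num)).1
          ((Nat.pow_le_pow_left ha _).trans_lt h2)
      · exact (Nat.pow_lt_pow_iff_right (by norm_num)).1
          ((Nat.pow_le_pow_left hb _).trans_lt h3)
    refine (card_le_card h1).trans (le_of_eq ?_)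
    rw [card_product, card_range]
    ring
  -- unbalanced solutions
  have hlog : ∀ x ∈ F, (x.1 % q, Nat.log 2 x.1) ∈ range q ×ˢ range (Nat.log 2 N + 1) := by
    intro x hx
    rw [mem_product, mem_range, mem_range]
    have h1 : Nat.log 2 x.1 ≤ Nat.log 2 N := Nat.log_mono_right (hF x hx).1
    exact ⟨Nat.mod_lt _ (by omega), Nat.lt_succ_of_le h1⟩
  have hU : ((F.filter (fun x => ¬ a ^ x.1 < 2 * q ^ q)).filter
      (fun x => (b ^ x.2) ^ q * (a ^ x.1) ^ 10 ≤ (a ^ x.1) ^ q)).card ≤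
      q * (Nat.log 2 N + 1) := by
    have h0 : (range q ×ˢ range (Nat.log 2 N + 1)).card = q * (Nat.log 2 N + 1) := by
      rw [card_product, card_range, card_range]
    rw [← h0]
    refine card_le_card_of_injOn (fun x => (x.1 % q, Nat.log 2 x.1)) ?_ ?_
    · intro x hx
      rw [mem_coe, mem_filter, mem_filter] at hx
      exact hlog x hx.1.1
    · have key : ∀ x y : ℕ × ℕ, x ∈ F → y ∈ F → ¬ a ^ x.1 < 2 * q ^ q →
          (b ^ x.2) ^ q * (a ^ x.1) ^ 10 ≤ (a ^ x.1) ^ q →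
          (b ^ y.2) ^ q * (a ^ y.1) ^ 10 ≤ (a ^ y.1) ^ q → x.1 % q = y.1 % q → x.1 ≤ y.1 →
          Nat.log 2 x.1 = Nat.log 2 y.1 → x = y := by
        intro x y hx hy h1 h2 h3 h4 h5 h6
        by_contra hne
        have hD : 2 ^ q ≤ a ^ x.1 := by
          calc 2 ^ q ≤ q ^ q := Nat.pow_le_pow_left (by omega) _
            _ ≤ 2 * q ^ q := by omega
            _ ≤ a ^ x.1 := by omega
        have h7 := gap_unbal ha hb hab hτ hq1 (hc x hx) (hc y hy) h4 hD h5 h2 h3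
          (fun h => hne (Prod.ext (Prod.mk.inj h).1 (Prod.mk.inj h).2))
        exact log_ne ha (hc x hx).m0
          ((Nat.pow_le_pow_right (by norm_num) (by omega)).trans hD) h7 h6
      intro x hx y hy he
      rw [mem_coe, mem_filter, mem_filter] at hx hy
      obtain ⟨e1, e2⟩ := Prod.mk.inj he
      rcases le_total x.1 y.1 with h | h
      · exact key x y hx.1.1 hy.1.1 hx.1.2 hx.2 hy.2 e1 h e2
      · exact (key y x hy.1.1 hx.1.1 hy.1.2 hy.2 hx.2 e1.symm h e2.symm).symm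
  -- balanced solutions
  have hB : ((F.filter (fun x => ¬ a ^ x.1 < 2 * q ^ q)).filter
      (fun x => ¬ (b ^ x.2) ^ q * (a ^ x.1) ^ 10 ≤ (a ^ x.1) ^ q)).card ≤
      q ^ T.card * (q * (Nat.log 2 N + 1)) := by
    obtain ⟨G, hG⟩ : ∃ G, G = (F.filter (fun x => ¬ a ^ x.1 < 2 * q ^ q)).filter
      (fun x => ¬ (b ^ x.2) ^ q * (a ^ x.1) ^ 10 ≤ (a ^ x.1) ^ q) := ⟨_, rfl⟩
    rw [← hG]
    have hGm : ∀ x ∈ G, x ∈ F ∧ 2 * q ^ q ≤ a ^ x.1 ∧
        (a ^ x.1) ^ q < (b ^ x.2) ^ q * (a ^ x.1) ^ 10 := by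
      intro x hx
      rw [hG, mem_filter, mem_filter, not_lt, not_le] at hx
      exact ⟨hx.1.1, hx.1.2, hx.2⟩
    have h1 := card_le_mul_card_image (f := fun x : ℕ × ℕ => (x.1 % q, Nat.log 2 x.1)) G
      (q ^ T.card) (by
        intro i _
        obtain ⟨R, hR⟩ : ∃ R : T → Finset ℕ, ∀ p : T, R p = (range p).filter
          (fun r => ((r : ℕ) : ZMod p) ^ q = ((a ^ i.1 : ℕ) : ZMod p)) := ⟨fun p => _, fun p => rfl⟩
        have hpr : ∀ p ∈ T, p.Prime ∧ p ∣ b := fun p hp =>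
          ⟨Nat.prime_of_mem_primeFactors (hT1 hp), Nat.dvd_of_mem_primeFactors (hT1 hp)⟩
        have h2 : (G.filter (fun x => (x.1 % q, Nat.log 2 x.1) = i)).card ≤
            (Fintype.piFinset R).card := by
          refine card_le_card_of_injOn (fun x => fun p : T => lbl a q x.1 (c x) p) ?_ ?_
          · intro x hx
            rw [mem_coe, mem_filter] at hx
            obtain ⟨hx1, hx2, hx3⟩ := hGm x hx.1
            rw [mem_coe, Fintype.mem_piFinset]
            intro p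
            have : Fact (p : ℕ).Prime := ⟨(hpr p p.2).1⟩
            rw [hR, mem_filter, mem_range]
            refine ⟨ZMod.val_lt _, ?_⟩
            rw [lbl_pow hab (hc x hx1) (hpr p p.2).1 (hpr p p.2).2, ← hx.2]
          · have key : ∀ x y : ℕ × ℕ, x ∈ G → y ∈ G → x.1 % q = y.1 % q → x.1 ≤ y.1 →
                Nat.log 2 x.1 = Nat.log 2 y.1 →
                (∀ p : T, lbl a q x.1 (c x) p = lbl a q y.1 (c y) p) → x = y := by
              intro x y hx hy h4 h5 h6 h7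
              obtain ⟨hx1, hx2, hx3⟩ := hGm x hx
              obtain ⟨hy1, hy2, hy3⟩ := hGm y hy
              by_contra hne
              have h8 := gap_bal ha hb hab hτ hq (by omega) (hc x hx1) (hc y hy1) h4 h5 hx3 hy3
                (fun h => hne (Prod.ext (Prod.mk.inj h).1 (Prod.mk.inj h).2)) T hT1 hT2
                (fun p hp => lbl_eq hab (hpr p hp).1 (hpr p hp).2 (h7 ⟨p, hp⟩))
              exact log_ne ha (hc x hx1).m0 hx2 h8 h6
            intro x hx y hy he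
            rw [mem_coe, mem_filter] at hx hy
            have h3 := hx.2.trans hy.2.symm
            obtain ⟨e1, e2⟩ := Prod.mk.inj h3
            rcases le_total x.1 y.1 with h | h
            · exact key x y hx.1 hy.1 e1 h e2 (fun p => congrFun he p)
            · exact (key y x hy.1 hx.1 e1.symm h e2.symm (fun p => (congrFun he p).symm)).symm
        refine h2.trans ?_
        rw [Fintype.card_piFinset]
        refine (prod_le_prod' fun p _ => ?_).trans (b := ∏ _p : T, q) ?_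
        · rw [hR]
          exact Pool.Agent.TH876.PW.ClassesAux.card_roots (hpr p p.2).1 (by omega) _
        · rw [prod_const, card_univ, Fintype.card_coe])
    refine h1.trans (Nat.mul_le_mul_left _ ?_)
    have h0 : (range q ×ˢ range (Nat.log 2 N + 1)).card = q * (Nat.log 2 N + 1) := by
      rw [card_product, card_range, card_range]
    rw [← h0]
    refine card_le_card ?_
    intro i hi
    rw [mem_image] at hi
    obtain ⟨x, hx, rfl⟩ := hi
    exact hlog x (hGm x hx).1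
  have e1 := card_filter_add_card_filter_not (s := F) (fun x => a ^ x.1 < 2 * q ^ q)
  have e2 := card_filter_add_card_filter_not
    (s := F.filter (fun x => ¬ a ^ x.1 < 2 * q ^ q))
    (fun x => (b ^ x.2) ^ q * (a ^ x.1) ^ 10 ≤ (a ^ x.1) ^ q)
  have hfin : q * (Nat.log 2 N + 1) + q ^ T.card * (q * (Nat.log 2 N + 1)) ≤
      2 * q ^ 2 * 2 ^ b.primeFactors.card * (Nat.log 2 N + 1) := by
    have h1 : q ^ T.card * (q * (Nat.log 2 N + 1)) ≤
        q * 2 ^ b.primeFactors.card * (q * (Nat.log 2 N + 1)) := Nat.mul_le_mul_right _ hT3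
    have h2 : q * (Nat.log 2 N + 1) ≤ q * 2 ^ b.primeFactors.card * (q * (Nat.log 2 N + 1)) := by
      refine Nat.le_mul_of_pos_left _ (Nat.mul_pos (by omega) (by positivity))
    calc q * (Nat.log 2 N + 1) + q ^ T.card * (q * (Nat.log 2 N + 1))
        ≤ q * 2 ^ b.primeFactors.card * (q * (Nat.log 2 N + 1)) +
          q * 2 ^ b.primeFactors.card * (q * (Nat.log 2 N + 1)) := Nat.add_le_add h2 h1
      _ = _ := by ring
  omega

end Pool.Agent.R476.TC
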