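import Mathlib
import Pool.Agent.TH888.G.QBD
import Pool.Agent.Y902.FB.Exp

/-!
# Two given bases: the bound for the prime exponent
-/

set_option autoImplicit false

namespace Pool.Agent.R476.TC

/-- the three equations -/
def Eqn (a b m n c k : ℕ) : Prop :=
  a ^ m + b ^ n = c ^ k ∨ a ^ m = b ^ n + c ^ k ∨ b ^ n = a ^ m + c ^ k

theorem Eqn.symm {a b m n c k : ℕ} (h : Eqn a b m n c k) : Eqn b a n m c k := by
  rcases h with h | h | h
  · exact Or.inl (by omega)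
  · exact Or.inr (Or.inr h)
  · exact Or.inr (Or.inl h)

theorem Eqn.int {a b m n c k : ℕ} (h : Eqn a b m n c k) : ∃ s t : ℤ, (s = 1 ∨ s = -1) ∧
    (t = 1 ∨ t = -1) ∧ (c : ℤ) ^ k - s * (a : ℤ) ^ m = t * (b : ℤ) ^ n := by
  rcases h with h | h | h
  · refine ⟨1, 1, Or.inl rfl, Or.inl rfl, ?_⟩
    have : (a : ℤ) ^ m + (b : ℤ) ^ n = (c : ℤ) ^ k := by exact_mod_cast h
    linarith
  · refine ⟨1, -1, Or.inl rfl, Or.inr rfl, ?_⟩
    have : (a : ℤ) ^ m = (b : ℤ) ^ n + (c : ℤ) ^ k := by exact_mod_cast h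
    linarith
  · refine ⟨-1, 1, Or.inr rfl, Or.inl rfl, ?_⟩
    have : (b : ℤ) ^ n = (a : ℤ) ^ m + (c : ℤ) ^ k := by exact_mod_cast h
    linarith

theorem not_both {a b p : ℕ} (hab : Nat.Coprime a b) (hp : p.Prime) (ha : p ∣ a) (hb : p ∣ b) :
    False := by
  have h3 := Nat.dvd_gcd ha hb
  rw [hab] at h3
  exact hp.one_lt.ne' (Nat.dvd_one.1 h3)

/-- the third base is prime to the first -/
theorem Eqn.cop {a b m n c k : ℕ} (h : Eqn a b m n c k) (hab : Nat.Coprime a b) (hm : 0 < m)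
    (hk : 0 < k) : Nat.Coprime c a := by
  obtain ⟨s, t, hs, ht, he⟩ := h.int
  by_contra hco
  obtain ⟨p, hp, hpc, hpa⟩ := Nat.Prime.not_coprime_iff_dvd.1 hco
  have h1 : (p : ℤ) ∣ (c : ℤ) ^ k := dvd_pow (Int.natCast_dvd_natCast.2 hpc) hk.ne'
  have h2 : (p : ℤ) ∣ (a : ℤ) ^ m := dvd_pow (Int.natCast_dvd_natCast.2 hpa) hm.ne'
  have h3 : (p : ℤ) ∣ t * (b : ℤ) ^ n := by
    rw [← he]
    exact dvd_sub h1 (h2.mul_left _)
  have h4 : (p : ℤ) ∣ (b : ℤ) ^ n := by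
    rcases ht with rfl | rfl
    · simpa using h3
    · simpa using h3
  have h5 : p ∣ b ^ n := by exact_mod_cast h4
  exact not_both hab hp hpa (hp.dvd_of_dvd_pow h5)

/-- the bound if the second base is even -/
theorem qb_even {a b m n c q : ℕ} (ha : 2 ≤ a) (hb : 2 ≤ b) (hab : Nat.Coprime a b) (hm : 0 < m)
    (hn : 0 < n) (hc : 2 ≤ c) (hq : q.Prime) (hq3 : 3 ≤ q) (h : Eqn a b m n c q) (h2 : 2 ∣ b) :
    q ≤ 1024 * 10 ^ 18 * (Nat.log 2 (max a b) + 1) ^ 4 := by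
  obtain ⟨s, t, hs, ht, he⟩ := h.int
  have ha2 : ¬ 2 ∣ a := fun h3 => not_both hab Nat.prime_two h3 h2
  have hcop := h.cop hab hm hq.pos
  have hcopb := h.symm.cop hab.symm hn hq.pos
  have htn : (t * (b : ℤ) ^ n).natAbs = b ^ n := by
    rcases ht with rfl | rfl
    · rw [one_mul, Int.natAbs_pow, Int.natAbs_natCast]
    · rw [neg_one_mul, Int.natAbs_neg, Int.natAbs_pow, Int.natAbs_natCast]
  have h1 := Pool.Agent.TH888.G.q_boundD (N := max a b) (R := 2) (A := a) (q := q) (x := m)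
    (Y := n) (U := c) (p := 2) (s := s) (t := t * (b : ℤ) ^ n) hs hq hq3 (by omega)
    (fun h => by omega) (le_max_left _ _) hcop hm hn hc Nat.prime_two le_rfl ?_ ?_ ?_ ?_ ha2 he
  · have h3 : q ≤ (4 * 10 ^ 9 * (Nat.log 2 (max a b) + 1) ^ 2) * (Nat.log 2 q + 1) ^ 2 := by
      calc q ≤ _ := h1
        _ = _ := by ring
    have h4 := Pool.Agent.TH888.G.q_solve hq.pos h3
    calc q ≤ _ := h4
      _ = _ := by ring
  · intro h0
    have : (t * (b : ℤ) ^ n).natAbs = 0 := by rw [h0]; rfl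
    rw [htn] at this
    exact absurd this (Nat.pow_pos (by omega)).ne'
  · refine Dvd.dvd.mul_left (pow_dvd_pow_of_dvd ?_ _) _
    exact_mod_cast h2
  · rw [htn, pow_mul]
    refine Nat.pow_lt_pow_left ?_ hn.ne'
    exact (le_max_right a b).trans_lt (Nat.lt_pow_succ_log_self (by norm_num) _)
  · intro h5
    exact not_both hcopb Nat.prime_two h5 h2

theorem qb : ∃ C κ : ℕ, ∀ a b N m n c q : ℕ, 2 ≤ a → 2 ≤ b → Nat.Coprime a b → 0 < m → m ≤ N →
    0 < n → n ≤ N → 2 ≤ c → q.Prime → Eqn a b m n c q →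
    q ≤ C * (Nat.log 2 (a * b * N) + 1) ^ κ := by
  obtain ⟨C0, κ0, hC⟩ := Pool.Agent.Y902.FB.baker_even
  refine ⟨1024 * 10 ^ 18 + C0 * 2 ^ κ0, κ0 + 4, ?_⟩
  intro a b N m n c q ha hb hab hm hmN hn hnN hc hq h
  obtain ⟨L, hL⟩ : ∃ L, L = Nat.log 2 (a * b * N) + 1 := ⟨_, rfl⟩
  rw [← hL]
  have hN : 0 < N := by omega
  have hL1 : 1 ≤ L := by omega
  have hlt : a * b * N < 2 ^ L := by
    rw [hL]
    exact Nat.lt_pow_succ_log_self (by norm_num) _
  have haL : a ≤ a * b * N := by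
    rw [mul_assoc]; exact Nat.le_mul_of_pos_right _ (Nat.mul_pos (by omega) hN)
  have hbL : b ≤ a * b * N := by
    rw [mul_comm a b, mul_assoc]; exact Nat.le_mul_of_pos_right _ (Nat.mul_pos (by omega) hN)
  have hNL : N ≤ a * b * N := Nat.le_mul_of_pos_left _ (Nat.mul_pos (by omega) (by omega))
  have hpos : ∀ k, 1 ≤ L ^ k := fun k => Nat.one_le_pow _ _ hL1
  have hbase : ∀ x, x ≤ 1024 * 10 ^ 18 * L ^ 4 →
      x ≤ (1024 * 10 ^ 18 + C0 * 2 ^ κ0) * L ^ (κ0 + 4) := by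
    intro x hx
    refine hx.trans (Nat.mul_le_mul (Nat.le_add_right _ _) (Nat.pow_le_pow_right hL1 (by omega)))
  rcases Nat.lt_or_ge q 3 with hq3 | hq3
  · refine hbase q ?_
    have := hpos 4
    omega
  have hmax : Nat.log 2 (max a b) + 1 ≤ L := by
    rw [hL]
    have : Nat.log 2 (max a b) ≤ Nat.log 2 (a * b * N) := Nat.log_mono_right (max_le haL hbL)
    omega
  by_cases hb2 : 2 ∣ b
  · refine hbase q ((qb_even ha hb hab hm hn hc hq hq3 h hb2).trans ?_)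
    exact Nat.mul_le_mul_left _ (Nat.pow_le_pow_left hmax _)
  by_cases ha2 : 2 ∣ a
  · refine hbase q ((qb_even hb ha hab.symm hn hm hc hq hq3 h.symm ha2).trans ?_)
    rw [max_comm]
    exact Nat.mul_le_mul_left _ (Nat.pow_le_pow_left hmax _)
  -- both bases are odd
  obtain ⟨s, t, hs, ht, he⟩ := h.int
  have hao : Odd a := Nat.odd_iff.2 (by omega)
  have hbo : Odd b := Nat.odd_iff.2 (by omega)
  have hc2 : 2 ∣ c := by
    have h1 : Even (c ^ q) := by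
      have ha' := hao.pow (n := m)
      have hb' := hbo.pow (n := n)
      rcases h with h | h | h
      · rw [← h]; exact ha'.add_odd hb'
      · rw [h] at ha'
        rcases Nat.even_or_odd (c ^ q) with h1 | h1
        · exact h1
        · exact absurd (hb'.add_odd h1) (Nat.not_even_iff_odd.2 ha')
      · rw [h] at hb'
        rcases Nat.even_or_odd (c ^ q) with h1 | h1
        · exact h1
        · exact absurd (ha'.add_odd h1) (Nat.not_even_iff_odd.2 hb')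
    exact Nat.prime_two.dvd_of_dvd_pow (even_iff_two_dvd.1 h1)
  have hdvd : ((2 : ℕ) : ℤ) ^ q ∣ (a : ℤ) ^ (2 * m) - (b : ℤ) ^ (2 * n) := by
    have h1 : ((2 : ℕ) : ℤ) ^ q ∣ (c : ℤ) ^ q :=
      pow_dvd_pow_of_dvd (Int.natCast_dvd_natCast.2 hc2) _
    have hs2 : s * s = 1 := by rcases hs with rfl | rfl <;> norm_num
    have ht2 : t * t = 1 := by rcases ht with rfl | rfl <;> norm_num
    have h2 : (a : ℤ) ^ (2 * m) - (b : ℤ) ^ (2 * n) =
        (c : ℤ) ^ q * ((c : ℤ) ^ q - 2 * (t * (b : ℤ) ^ n)) := by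
      have h3 : (c : ℤ) ^ q = s * (a : ℤ) ^ m + t * (b : ℤ) ^ n := by linarith
      rw [h3, mul_comm 2 m, mul_comm 2 n, pow_mul, pow_mul]
      linear_combination (-(((a : ℤ) ^ m) ^ 2)) * hs2 + (((b : ℤ) ^ n) ^ 2) * ht2
    rw [h2]
    exact h1.mul_right _
  have hne : a ^ (2 * m) ≠ b ^ (2 * n) := by
    intro h1
    have h2 : Nat.Coprime (a ^ (2 * m)) (b ^ (2 * n)) := hab.pow _ _
    rw [← h1, Nat.coprime_self] at h2
    have h3 : 1 < a ^ (2 * m) := Nat.one_lt_pow (by omega) (by omega)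
    omega
  have h1 := hC (L + 1) (by omega) a b (2 * m) (2 * n) q ha2 hb2 ?_ ?_ ?_ ?_ hne hdvd
  · calc q ≤ C0 * (L + 1) ^ κ0 := h1
      _ ≤ C0 * (2 * L) ^ κ0 := Nat.mul_le_mul_left _ (Nat.pow_le_pow_left (by omega) _)
      _ = C0 * 2 ^ κ0 * L ^ κ0 := by rw [mul_pow]; ring
      _ ≤ (1024 * 10 ^ 18 + C0 * 2 ^ κ0) * L ^ (κ0 + 4) :=
          Nat.mul_le_mul (Nat.le_add_left _ _) (Nat.pow_le_pow_right hL1 (by omega))
  all_goals
    rw [pow_succ]
    omega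

end Pool.Agent.R476.TC
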