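import Mathlib
import Pool.Agent.TH876.PW.Gap
import Pool.Agent.TH876.PW.Divis
import Pool.Agent.TH876.PW.Vanish
import Pool.Agent.TH876.PW.Classes

/-!
# Two given supports: the count for a fixed exponent
-/

set_option autoImplicit false

namespace Pool.Agent.R476.TC

open Finset Pool.Agent.TH876.PW

/-- all primes of `w` -/
theorem wt_sp (w : ℤ) : wt (sp w) w = Real.log |(w : ℝ)| := by
  have e : |(w : ℝ)| = (w.natAbs : ℝ) := by
    rw [Nat.cast_natAbs, Int.cast_abs]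
  unfold wt vl sp
  rw [e, Real.log_nat_eq_sum_factorization, Finsupp.sum, Nat.support_factorization]

theorem log_abs_nonneg {w : ℤ} (hw : w ≠ 0) : 0 ≤ Real.log |(w : ℝ)| := by
  apply Real.log_nonneg
  have h : (1 : ℤ) ≤ |w| := Int.one_le_abs hw
  exact_mod_cast h

theorem large_sp {m : ℕ} (hm : 2 ≤ m) {w : ℤ} (hw : w ≠ 0) (z : ℕ) :
    Large m (1 / 4) (sp w) ∅ w z := by
  refine ⟨Subset.refl _, Or.inl ⟨rfl, ?_⟩⟩
  rw [wt_sp]
  have h1 := log_abs_nonneg hw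
  have h2 : (1 : ℝ) / m ≤ 1 / 2 := by
    apply one_div_le_one_div_of_le (by norm_num)
    exact_mod_cast hm
  nlinarith

/-- the count for one scale and fixed supports -/
theorem fix_scale {m k : ℕ} {L0 C1 : ℝ} (hm : 2 ≤ m)
    (gap : ∀ l : ℝ, L0 ≤ l → ∀ (T Z : Finset ℕ) (u w : ℤ) (z : ℕ) (u' w' : ℤ) (z' : ℕ),
      Sol m u w z → Sol m u' w' z' →
      (1 - 1 / (k : ℝ)) * l ≤ ht u w → ht u w ≤ l → (1 - 1 / (k : ℝ)) * l ≤ ht u' w' →
      ht u' w' ≤ l →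
      Large m (1 / 4) T Z w z → Large m (1 / 4) T Z w' z' → Same m T u w z u' w' z' →
      Near k l (sp u) u u' → Near k l T w w' → Near k l Z (z : ℤ) (z' : ℤ) →
      u = u' ∧ w = w' ∧ z = z')
    (cls : ∀ (A T Z : Finset ℕ) (l : ℝ), 1 ≤ l → ∀ F : Finset (ℤ × ℤ × ℕ),
      (∀ x ∈ F, Sol m x.1 x.2.1 x.2.2 ∧ sp x.1 = A ∧ T ⊆ sp x.2.1 ∧ (Z = ∅ ∨ Z = sp (x.2.2 : ℤ)) ∧
        ht x.1 x.2.1 ≤ l) →
      (∀ x ∈ F, ∀ y ∈ F, Same m T x.1 x.2.1 x.2.2 y.1 y.2.1 y.2.2 → Near k l A x.1 y.1 →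
        Near k l T x.2.1 y.2.1 → Near k l Z (x.2.2 : ℤ) (y.2.2 : ℤ) → x = y) →
      (F.card : ℝ) ≤ C1 ^ (A.card + T.card + Z.card + 1))
    {l : ℝ} (hl0 : L0 ≤ l) (hl1 : 1 ≤ l) (A B : Finset ℕ)
    (F : Finset (ℤ × ℤ × ℕ))
    (hF : ∀ x ∈ F, Sol m x.1 x.2.1 x.2.2 ∧ sp x.1 = A ∧ sp x.2.1 = B ∧
      (1 - 1 / (k : ℝ)) * l ≤ ht x.1 x.2.1 ∧ ht x.1 x.2.1 ≤ l) :
    (F.card : ℝ) ≤ C1 ^ (A.card + B.card + 1) := by
  have h := cls A B ∅ l hl1 F ?_ ?_
  · simpa using h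
  · intro x hx
    obtain ⟨h1, h2, h3, h4, h5⟩ := hF x hx
    exact ⟨h1, h2, h3 ▸ Subset.refl _, Or.inl rfl, h5⟩
  · intro x hx y hy hs n1 n2 n3
    obtain ⟨h1, h2, h3, h4, h5⟩ := hF x hx
    obtain ⟨h1', h2', h3', h4', h5'⟩ := hF y hy
    have L1 : Large m (1 / 4) B ∅ x.2.1 x.2.2 := by
      have := large_sp hm h1.w0 x.2.2
      rwa [h3] at this
    have L2 : Large m (1 / 4) B ∅ y.2.1 y.2.2 := by
      have := large_sp hm h1'.w0 y.2.2
      rwa [h3'] at this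
    rw [← h2] at n1
    obtain ⟨q1, q2, q3⟩ := gap l hl0 B ∅ x.1 x.2.1 x.2.2 y.1 y.2.1 y.2.2 h1 h1' h4 h5 h4' h5'
      L1 L2 hs n1 n2 n3
    exact Prod.ext q1 (Prod.ext q2 q3)

/-- the count of the solutions with given supports of `u` and `w` -/
theorem core_fix (m : ℕ) (hm : 2 ≤ m) : ∃ C : ℝ, 1 ≤ C ∧ ∀ (A B : Finset ℕ) (H : ℝ), 1 ≤ H →
    ∀ F : Finset (ℤ × ℤ × ℕ),
    (∀ x ∈ F, Sol m x.1 x.2.1 x.2.2 ∧ sp x.1 = A ∧ sp x.2.1 = B ∧ ht x.1 x.2.1 ≤ H) →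
    (F.card : ℝ) ≤ C ^ (A.card + B.card + 1) * (1 + Real.log H) := by
  classical
  obtain ⟨k, L0, hk, hL0, gp⟩ := gap divis vanish m (1 / 4) hm (by norm_num) le_rfl
  obtain ⟨C1, hC1, cls⟩ := classes m k hm (by omega)
  obtain ⟨N, hN⟩ : ∃ N : ℕ, N = ⌊Real.exp L0⌋₊ := ⟨_, rfl⟩
  have hk1 : (1 : ℝ) < k := by exact_mod_cast (by omega : 1 < k)
  have hk0 : (0 : ℝ) < k := by linarith
  refine ⟨(((2 * N + 1) ^ 2 : ℕ) + k) * C1, ?_, ?_⟩
  · have : (0 : ℝ) ≤ ((2 * N + 1) ^ 2 : ℕ) := Nat.cast_nonneg _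
    nlinarith
  intro A B H hH F hF
  obtain ⟨q, hq⟩ : ∃ q : ℝ, q = 1 - 1 / (k : ℝ) := ⟨_, rfl⟩
  have hq0 : 0 < q := by
    rw [hq, sub_pos, div_lt_one hk0]
    exact hk1
  have hq1 : q < 1 := by
    rw [hq]
    have : 0 < 1 / (k : ℝ) := by positivity
    linarith
  have hqi : 1 < 1 / q := by
    rw [lt_div_iff₀ hq0]
    linarith
  have hlogH : 0 ≤ Real.log H := Real.log_nonneg hH
  -- small heights
  have hsmall : ((F.filter (fun x => ht x.1 x.2.1 ≤ L0)).card : ℝ) ≤ ((2 * N + 1) ^ 2 : ℕ) := by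
    have h1 : (F.filter (fun x => ht x.1 x.2.1 ≤ L0)).card ≤
        (Icc (-(N : ℤ)) N ×ˢ Icc (-(N : ℤ)) N).card := by
      refine card_le_card_of_injOn (fun x => (x.1, x.2.1)) ?_ ?_
      · intro x hx
        simp only [coe_filter, Set.mem_ofPred_eq] at hx
        obtain ⟨hx1, hx2⟩ := hx
        have hs := (hF x hx1).1
        have hu : (0 : ℝ) < |(x.1 : ℝ)| := abs_pos.mpr (by exact_mod_cast hs.u0)
        have hmax : 0 < max |(x.1 : ℝ)| |(x.2.1 : ℝ)| := lt_of_lt_of_le hu (le_max_left _ _)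
        have h3 : max |(x.1 : ℝ)| |(x.2.1 : ℝ)| ≤ Real.exp L0 :=
          (Real.log_le_iff_le_exp hmax).mp hx2
        have key : ∀ a : ℤ, |(a : ℝ)| ≤ Real.exp L0 → a ∈ Icc (-(N : ℤ)) N := by
          intro a ha
          have h4 : (a.natAbs : ℝ) ≤ Real.exp L0 := by
            rw [Nat.cast_natAbs, Int.cast_abs]
            exact ha
          have h5 : a.natAbs ≤ N := by
            rw [hN]
            exact Nat.le_floor h4
          rw [mem_Icc]
          omega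
        rw [mem_coe, mem_product]
        exact ⟨key _ ((le_max_left _ _).trans h3), key _ ((le_max_right _ _).trans h3)⟩
      · intro x hx y hy hxy
        simp only [coe_filter, Set.mem_ofPred_eq] at hx hy
        simp only [Prod.mk.injEq] at hxy
        have e1 := (hF x hx.1).1.eq
        have e2 := (hF y hy.1).1.eq
        rw [hxy.1, hxy.2, e2] at e1
        have e3 : y.2.2 ^ m = x.2.2 ^ m := by exact_mod_cast e1
        have e4 := Nat.pow_left_injective (by omega : m ≠ 0) e3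
        exact Prod.ext hxy.1 (Prod.ext hxy.2 e4.symm)
    have h2 : (Icc (-(N : ℤ)) N ×ˢ Icc (-(N : ℤ)) N).card = (2 * N + 1) ^ 2 := by
      rw [card_product, Int.card_Icc, pow_two]
      congr 1 <;> omega
    rw [h2] at h1
    exact_mod_cast h1
  -- the scales
  obtain ⟨I, hI⟩ : ∃ I : ℕ, I = ⌊k * Real.log H⌋₊ + 1 := ⟨_, rfl⟩
  have hIle : (I : ℝ) ≤ k * (1 + Real.log H) := by
    rw [hI]
    push_cast
    have := Nat.floor_le (show 0 ≤ (k : ℝ) * Real.log H by positivity)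
    nlinarith
  obtain ⟨li, hli⟩ : ∃ li : ℕ → ℝ, ∀ i, li i = L0 * (1 / q) ^ (i + 1) := ⟨fun i => _, fun i => rfl⟩
  have hcover : F ⊆ F.filter (fun x => ht x.1 x.2.1 ≤ L0) ∪ (range I).biUnion (fun i =>
      F.filter (fun x => (1 - 1 / (k : ℝ)) * li i ≤ ht x.1 x.2.1 ∧ ht x.1 x.2.1 ≤ li i)) := by
    intro x hx
    rw [mem_union, mem_filter, mem_biUnion]
    by_cases h : ht x.1 x.2.1 ≤ L0
    · exact Or.inl ⟨hx, h⟩
    · right
      push Not at h
      have hL0pos : 0 < L0 := by linarith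
      obtain ⟨i, hi1, hi2⟩ := exists_nat_pow_near (x := ht x.1 x.2.1 / L0)
        (by rw [le_div_iff₀ hL0pos]; linarith) hqi
      have hxH := (hF x hx).2.2.2
      refine ⟨i, ?_, mem_filter.mpr ⟨hx, ?_, ?_⟩⟩
      · rw [mem_range, hI, Nat.lt_add_one_iff]
        refine Nat.le_floor ?_
        have h1 : (1 / q) ^ i ≤ H := by
          refine hi1.trans ?_
          rw [div_le_iff₀ hL0pos]
          nlinarith
        have h2 : (i : ℝ) * Real.log (1 / q) ≤ Real.log H := by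
          rw [← Real.log_pow]
          exact Real.log_le_log (by positivity) h1
        have h3 : 1 / (k : ℝ) ≤ Real.log (1 / q) := by
          rw [one_div q, Real.log_inv, hq]
          have := Real.log_le_sub_one_of_pos (show 0 < 1 - 1 / (k : ℝ) by rw [← hq]; exact hq0)
          linarith
        have h4 : (i : ℝ) * (1 / k) ≤ Real.log H :=
          (mul_le_mul_of_nonneg_left h3 (Nat.cast_nonneg i)).trans h2
        calc (i : ℝ) = k * (i * (1 / k)) := by field_simp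
          _ ≤ k * Real.log H := mul_le_mul_of_nonneg_left h4 hk0.le
      · rw [← hq, hli, pow_succ]
        rw [le_div_iff₀ hL0pos] at hi1
        calc q * (L0 * ((1 / q) ^ i * (1 / q))) = (1 / q) ^ i * L0 * (q * (1 / q)) := by ring
          _ = (1 / q) ^ i * L0 := by rw [mul_one_div_cancel hq0.ne', mul_one]
          _ ≤ _ := hi1
      · rw [hli]
        rw [div_lt_iff₀ hL0pos] at hi2
        linarith [mul_comm L0 ((1 / q) ^ (i + 1))]
  have hsc : ∀ i ∈ range I, ((F.filter (fun x => (1 - 1 / (k : ℝ)) * li i ≤ ht x.1 x.2.1 ∧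
      ht x.1 x.2.1 ≤ li i)).card : ℝ) ≤ C1 ^ (A.card + B.card + 1) := by
    intro i _
    have hl0 : L0 ≤ li i := by
      rw [hli]
      have : 1 ≤ (1 / q) ^ (i + 1) := one_le_pow₀ hqi.le
      nlinarith
    refine fix_scale hm gp cls hl0 (hL0.trans hl0) A B _ ?_
    intro x hx
    rw [mem_filter] at hx
    obtain ⟨g1, g2, g3, g4⟩ := hF x hx.1
    exact ⟨g1, g2, g3, hx.2.1, hx.2.2⟩
  have hP : (1 : ℝ) ≤ C1 ^ (A.card + B.card + 1) := one_le_pow₀ hC1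
  have hM : (1 : ℝ) ≤ ((2 * N + 1) ^ 2 : ℕ) + k := by
    have : (0 : ℝ) ≤ ((2 * N + 1) ^ 2 : ℕ) := Nat.cast_nonneg _
    linarith
  calc (F.card : ℝ) ≤ ((F.filter (fun x => ht x.1 x.2.1 ≤ L0) ∪ (range I).biUnion (fun i =>
      F.filter (fun x => (1 - 1 / (k : ℝ)) * li i ≤ ht x.1 x.2.1 ∧ ht x.1 x.2.1 ≤ li i))).card : ℝ) := by
        exact_mod_cast card_le_card hcover
    _ ≤ ((F.filter (fun x => ht x.1 x.2.1 ≤ L0)).card : ℝ) + ∑ i ∈ range I, ((F.filter (fun x =>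
        (1 - 1 / (k : ℝ)) * li i ≤ ht x.1 x.2.1 ∧ ht x.1 x.2.1 ≤ li i)).card : ℝ) := by
        have h1 := (card_union_le (F.filter (fun x => ht x.1 x.2.1 ≤ L0)) ((range I).biUnion (fun i =>
          F.filter (fun x => (1 - 1 / (k : ℝ)) * li i ≤ ht x.1 x.2.1 ∧ ht x.1 x.2.1 ≤ li i)))).trans
          (Nat.add_le_add_left card_biUnion_le _)
        exact_mod_cast h1
    _ ≤ ((2 * N + 1) ^ 2 : ℕ) + ∑ _i ∈ range I, C1 ^ (A.card + B.card + 1) :=
        add_le_add hsmall (sum_le_sum hsc)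
    _ = ((2 * N + 1) ^ 2 : ℕ) + I * C1 ^ (A.card + B.card + 1) := by
        rw [sum_const, card_range, nsmul_eq_mul]
    _ ≤ ((2 * N + 1) ^ 2 : ℕ) * (C1 ^ (A.card + B.card + 1) * (1 + Real.log H)) +
        (k * (1 + Real.log H)) * C1 ^ (A.card + B.card + 1) := by
        refine add_le_add ?_ ?_
        · refine le_mul_of_one_le_right (Nat.cast_nonneg _) ?_
          nlinarith
        · exact mul_le_mul_of_nonneg_right hIle (by linarith)
    _ = (((2 * N + 1) ^ 2 : ℕ) + k) * C1 ^ (A.card + B.card + 1) * (1 + Real.log H) := by ring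
    _ ≤ ((((2 * N + 1) ^ 2 : ℕ) + k) * C1) ^ (A.card + B.card + 1) * (1 + Real.log H) := by
        refine mul_le_mul_of_nonneg_right ?_ (by linarith)
        rw [mul_pow]
        exact mul_le_mul_of_nonneg_right (le_self_pow₀ hM (by omega)) (by linarith)

end Pool.Agent.R476.TC
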