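import Mathlib
import Pool.Agent.R476.TC.Small
import Pool.Agent.R476.TC.Count
import Pool.Agent.R476.TC.QB

/-!
# Two given bases: the number of exponent pairs
-/

set_option autoImplicit false

namespace Pool.Agent.R476.TC

open Finset Pool.Agent.TH876.PW

theorem sp_pow {a m : ℕ} (hm : 0 < m) : sp (((a ^ m : ℕ) : ℤ)) = a.primeFactors := by
  unfold sp
  rw [Int.natAbs_natCast, Nat.primeFactors_pow _ hm.ne']

theorem omega_mul {a b : ℕ} (hab : Nat.Coprime a b) :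
    (a * b).primeFactors.card = a.primeFactors.card + b.primeFactors.card := by
  rw [hab.primeFactors_mul, card_union_of_disjoint hab.disjoint_primeFactors]

/-- the solution that belongs to a representation -/
theorem Rep.sol {a b q : ℕ} {τ : ℤ} {m n c : ℕ} (ha : 2 ≤ a) (hb : 2 ≤ b)
    (hab : Nat.Coprime a b) (hτ : τ = 1 ∨ τ = -1) (hq : 2 ≤ q) (h : Rep a b q τ m n c) :
    Sol q ((a ^ m : ℕ) : ℤ) (τ * ((b ^ n : ℕ) : ℤ)) c ∧
      sp ((a ^ m : ℕ) : ℤ) = a.primeFactors ∧ sp (τ * ((b ^ n : ℕ) : ℤ)) = b.primeFactors := by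
  have hna : (τ * ((b ^ n : ℕ) : ℤ)).natAbs = b ^ n := by
    rcases hτ with rfl | rfl
    · rw [one_mul, Int.natAbs_natCast]
    · rw [neg_one_mul, Int.natAbs_neg, Int.natAbs_natCast]
  have ha0 : 0 < a ^ m := Nat.pow_pos (by omega)
  have hb0 : 0 < b ^ n := Nat.pow_pos (by omega)
  refine ⟨⟨?_, ?_, ?_, ?_, ?_⟩, sp_pow h.m0, ?_⟩
  · push_cast
    exact h.eq
  · exact_mod_cast ha0.ne'
  · intro h0
    rw [h0] at hna
    simp only [Int.natAbs_zero] at hna
    omega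
  · apply Nat.pos_of_ne_zero
    rintro rfl
    have h1 := h.eq
    rw [Nat.cast_zero, zero_pow (by omega)] at h1
    have h2 : (b : ℤ) ^ n < (a : ℤ) ^ m := by exact_mod_cast h.lt
    have h3 : (0 : ℤ) < (b : ℤ) ^ n := by exact_mod_cast hb0
    rcases hτ with rfl | rfl <;> linarith
  · unfold Int.gcd
    rw [hna, Int.natAbs_natCast]
    have : Nat.gcd (a ^ m) (b ^ n) = 1 := hab.pow _ _
    rw [this]
    exact one_dvd _
  · unfold sp
    rw [hna, Nat.primeFactors_pow _ h.n0.ne']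

theorem Rep.ht {a b q : ℕ} {τ : ℤ} {m n c N : ℕ} (ha : 2 ≤ a) (hb : 2 ≤ b)
    (hτ : τ = 1 ∨ τ = -1) (h : Rep a b q τ m n c) (hm : m ≤ N) :
    ht ((a ^ m : ℕ) : ℤ) (τ * ((b ^ n : ℕ) : ℤ)) ≤ N * Real.log ((a * b : ℕ) : ℝ) := by
  have h1 : |((τ * ((b ^ n : ℕ) : ℤ) : ℤ) : ℝ)| = ((b ^ n : ℕ) : ℝ) := by
    rcases hτ with rfl | rfl
    · rw [one_mul, Int.cast_natCast, abs_of_nonneg (Nat.cast_nonneg _)]
    · rw [neg_one_mul, Int.cast_neg, abs_neg, Int.cast_natCast, abs_of_nonneg (Nat.cast_nonneg _)]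
  have h2 : |((((a ^ m : ℕ) : ℤ) : ℤ) : ℝ)| = ((a ^ m : ℕ) : ℝ) := by
    rw [Int.cast_natCast, abs_of_nonneg (Nat.cast_nonneg _)]
  unfold Pool.Agent.TH876.PW.ht
  rw [h1, h2, max_eq_left (by exact_mod_cast h.lt.le)]
  have ha1 : (1 : ℝ) ≤ a := by exact_mod_cast (by omega : 1 ≤ a)
  have hlog : Real.log (a : ℝ) ≤ Real.log ((a * b : ℕ) : ℝ) := by
    refine Real.log_le_log (by linarith) ?_
    exact_mod_cast Nat.le_mul_of_pos_right a (by omega)
  have h0 : 0 ≤ Real.log (a : ℝ) := Real.log_nonneg ha1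
  push_cast
  rw [Real.log_pow]
  push_cast at hlog
  exact mul_le_mul (by exact_mod_cast hm) hlog h0 (Nat.cast_nonneg _)

/-- `1 + log (N log (a b))` -/
theorem log_H {a b N : ℕ} (ha : 2 ≤ a) (hb : 2 ≤ b) (hN : 1 ≤ N) :
    1 ≤ N * Real.log ((a * b : ℕ) : ℝ) ∧ 1 + Real.log (N * Real.log ((a * b : ℕ) : ℝ)) ≤
      2 * ((Nat.log 2 (a * b * N) + 1 : ℕ) : ℝ) := by
  have h6 : 3 ≤ a * b := by nlinarith
  have hlog : 1 ≤ Real.log ((a * b : ℕ) : ℝ) := by
    rw [Real.le_log_iff_exp_le (by exact_mod_cast (by omega : 0 < a * b))]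
    have := Real.exp_one_lt_d9
    have h7 : (3 : ℝ) ≤ ((a * b : ℕ) : ℝ) := by exact_mod_cast h6
    linarith
  have hN1 : (1 : ℝ) ≤ N := by exact_mod_cast hN
  have hH : 1 ≤ N * Real.log ((a * b : ℕ) : ℝ) := by nlinarith
  refine ⟨hH, ?_⟩
  have hle : (N : ℝ) * Real.log ((a * b : ℕ) : ℝ) ≤ ((a * b * N : ℕ) : ℝ) := by
    have h1 := Real.log_le_sub_one_of_pos (x := ((a * b : ℕ) : ℝ)) (by
      exact_mod_cast (by omega : 0 < a * b))
    push_cast at h1 ⊢
    nlinarith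
  have h2 := Real.log_le_log (by linarith) hle
  obtain ⟨L, hL⟩ : ∃ L, L = Nat.log 2 (a * b * N) + 1 := ⟨_, rfl⟩
  rw [← hL]
  have hlt : a * b * N < 2 ^ L := by
    rw [hL]
    exact Nat.lt_pow_succ_log_self (by norm_num) _
  have hpos : 0 < a * b * N := Nat.mul_pos (by omega) (by omega)
  have h3 : Real.log ((a * b * N : ℕ) : ℝ) ≤ L := by
    have h4 : ((a * b * N : ℕ) : ℝ) ≤ 2 ^ L := by exact_mod_cast hlt.le
    have h5 := Real.log_le_log (by exact_mod_cast hpos) h4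
    rw [Real.log_pow] at h5
    have h6 : Real.log 2 ≤ 1 := by
      have := Real.log_two_lt_d9
      linarith
    have h7 : (0 : ℝ) ≤ L := Nat.cast_nonneg _
    nlinarith
  have hL1 : (1 : ℝ) ≤ L := by exact_mod_cast (by omega : 1 ≤ L)
  linarith

/-- the count for a given prime exponent -/
theorem count_prime : ∃ D : ℕ, 1 ≤ D ∧ ∀ (a b q : ℕ) (τ : ℤ), 2 ≤ a → 2 ≤ b → Nat.Coprime a b →
    (τ = 1 ∨ τ = -1) → q.Prime → ∀ (N : ℕ), 1 ≤ N → ∀ (F : Finset (ℕ × ℕ)),
    (∀ x ∈ F, x.1 ≤ N ∧ ∃ c, Rep a b q τ x.1 x.2 c) →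
    F.card ≤ D ^ (a * b).primeFactors.card * q ^ 4 * (Nat.log 2 (a * b * N) + 1) := by
  classical
  have hcf : ∀ q : ℕ, ∃ C : ℝ, 1 ≤ C ∧ (2 ≤ q → ∀ (A B : Finset ℕ) (H : ℝ), 1 ≤ H →
      ∀ F : Finset (ℤ × ℤ × ℕ),
      (∀ x ∈ F, Sol q x.1 x.2.1 x.2.2 ∧ sp x.1 = A ∧ sp x.2.1 = B ∧ ht x.1 x.2.1 ≤ H) →
      (F.card : ℝ) ≤ C ^ (A.card + B.card + 1) * (1 + Real.log H)) := by
    intro q
    by_cases hq : 2 ≤ q
    · obtain ⟨C, h1, h2⟩ := core_fix q hq
      exact ⟨C, h1, fun _ => h2⟩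
    · exact ⟨1, le_rfl, fun h => absurd h hq⟩
  choose Cq hCq1 hCq using hcf
  obtain ⟨D1, hD1⟩ : ∃ D1 : ℕ, ∀ q < 200, Cq q ≤ D1 := by
    refine ⟨⌈∑ q ∈ range 200, Cq q⌉₊, fun q hq => ?_⟩
    refine le_trans ?_ (Nat.le_ceil _)
    exact single_le_sum (f := Cq) (fun i _ => by linarith [hCq1 i]) (mem_range.2 hq)
  have hD11 : 1 ≤ D1 := by
    have h1 := hD1 0 (by norm_num)
    have h2 := hCq1 0
    exact_mod_cast h2.trans h1
  refine ⟨8 + 2 * D1 ^ 2, by omega, ?_⟩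
  intro a b q τ ha hb hab hτ hq N hN F hF
  obtain ⟨w, hw⟩ : ∃ w, w = (a * b).primeFactors.card := ⟨_, rfl⟩
  obtain ⟨L, hL⟩ : ∃ L, L = Nat.log 2 (a * b * N) + 1 := ⟨_, rfl⟩
  have hwab := omega_mul hab
  have hwa : 0 < a.primeFactors.card := by
    rw [card_pos, Nat.nonempty_primeFactors]
    omega
  have hwb : 0 < b.primeFactors.card := by
    rw [card_pos, Nat.nonempty_primeFactors]
    omega
  rw [← hw] at hwab ⊢
  rw [← hL]
  have hL1 : 1 ≤ L := by omega
  have hNL : Nat.log 2 N + 1 ≤ L := by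
    rw [hL]
    have : Nat.log 2 N ≤ Nat.log 2 (a * b * N) :=
      Nat.log_mono_right (Nat.le_mul_of_pos_left _ (Nat.mul_pos (by omega) (by omega)))
    omega
  have hq4 : 1 ≤ q ^ 4 := Nat.one_le_pow _ _ hq.pos
  rcases Nat.lt_or_ge q 200 with hq200 | hq200
  · -- the small exponents
    obtain ⟨hH, hlogH⟩ := log_H ha hb hN
    rw [← hL] at hlogH
    choose! c hc using fun x hx => (hF x hx).2
    have h1 := hCq q hq.two_le a.primeFactors b.primeFactors _ hH
      (F.image (fun x => (((a ^ x.1 : ℕ) : ℤ), τ * ((b ^ x.2 : ℕ) : ℤ), c x))) (by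
        intro y hy
        rw [mem_image] at hy
        obtain ⟨x, hx, rfl⟩ := hy
        obtain ⟨g1, g2, g3⟩ := (hc x hx).sol ha hb hab hτ hq.two_le
        exact ⟨g1, g2, g3, (hc x hx).ht ha hb hτ (hF x hx).1⟩)
    rw [card_image_of_injOn (by
      intro x hx y hy he
      rw [Prod.mk.injEq, Prod.mk.injEq] at he
      obtain ⟨e1, e2, -⟩ := he
      have f1 : a ^ x.1 = a ^ y.1 := by exact_mod_cast e1
      have f2 : ((b ^ x.2 : ℕ) : ℤ) = ((b ^ y.2 : ℕ) : ℤ) := by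
        rcases hτ with rfl | rfl <;> linarith
      have f3 : b ^ x.2 = b ^ y.2 := by exact_mod_cast f2
      exact Prod.ext (Nat.pow_right_injective ha f1) (Nat.pow_right_injective hb f3))] at h1
    have h2 : (F.card : ℝ) ≤ (D1 : ℝ) ^ (w + 1) * (2 * L) := by
      refine h1.trans ?_
      rw [← hwab]
      exact mul_le_mul (pow_le_pow_left₀ (by linarith [hCq1 q]) (hD1 q hq200) _) hlogH
        (by linarith [Real.log_nonneg hH]) (by positivity)
    have h3 : F.card ≤ D1 ^ (w + 1) * (2 * L) := by exact_mod_cast h2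
    have hwp : 1 ≤ w := by omega
    calc F.card ≤ D1 ^ (w + 1) * (2 * L) := h3
      _ = (2 * D1 ^ (w + 1)) * 1 * L := by ring
      _ ≤ (2 * D1 ^ 2) ^ w * q ^ 4 * L := by
          refine Nat.mul_le_mul_right _ (Nat.mul_le_mul ?_ hq4)
          rw [mul_pow, ← pow_mul]
          exact Nat.mul_le_mul (Nat.le_self_pow (by omega) 2)
            (Nat.pow_le_pow_right hD11 (by omega))
      _ ≤ _ := by
          refine Nat.mul_le_mul_right _ (Nat.mul_le_mul_right _ (Nat.pow_le_pow_left ?_ _))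
          omega
  · have h1 := count_large ha hb hab hτ hq hq200 N F hF
    have h2 : q ^ 2 ≤ q ^ 4 := Nat.pow_le_pow_right hq.pos (by norm_num)
    calc F.card ≤ q ^ 4 + 2 * q ^ 2 * 2 ^ b.primeFactors.card * (Nat.log 2 N + 1) := h1
      _ ≤ q ^ 4 * (1 * L) + 2 * q ^ 4 * 2 ^ w * L := by
          refine Nat.add_le_add ?_ ?_
          · exact Nat.le_mul_of_pos_right _ (by omega)
          · refine Nat.mul_le_mul (Nat.mul_le_mul (Nat.mul_le_mul_left _ h2) ?_) hNL
            exact Nat.pow_le_pow_right (by norm_num) (by omega)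
      _ ≤ q ^ 4 * (2 ^ w * L) + 2 * q ^ 4 * 2 ^ w * L := by
          refine Nat.add_le_add_right (Nat.mul_le_mul_left _ (Nat.mul_le_mul_right _ ?_)) _
          exact Nat.one_le_pow _ _ (by norm_num)
      _ = (3 * 2 ^ w) * q ^ 4 * L := by ring
      _ ≤ (4 ^ w * 2 ^ w) * q ^ 4 * L := by
          refine Nat.mul_le_mul_right _ (Nat.mul_le_mul_right _ (Nat.mul_le_mul_right _ ?_))
          calc 3 ≤ 4 ^ 1 := by norm_num
            _ ≤ 4 ^ w := Nat.pow_le_pow_right (by norm_num) (by omega)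
      _ = 8 ^ w * q ^ 4 * L := by rw [← mul_pow]; norm_num
      _ ≤ _ := by
          refine Nat.mul_le_mul_right _ (Nat.mul_le_mul_right _ (Nat.pow_le_pow_left ?_ _))
          omega

/-- all exponents at once -/
theorem two_bases : ∃ C κ : ℕ, ∀ a b : ℕ, 2 ≤ a → 2 ≤ b → Nat.Coprime a b → ∀ N : ℕ, 1 ≤ N →
    ∀ F : Finset (ℕ × ℕ), (∀ x ∈ F, 1 ≤ x.1 ∧ x.1 ≤ N ∧ 1 ≤ x.2 ∧ x.2 ≤ N ∧
      ∃ c k : ℕ, 2 ≤ k ∧ Eqn a b x.1 x.2 c k) →
    F.card ≤ C ^ (a * b).primeFactors.card * (Nat.log 2 (a * b * N) + 1) ^ κ := by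
  classical
  obtain ⟨D, hD1, hD⟩ := count_prime
  obtain ⟨C0, κ0, hqb⟩ := qb
  refine ⟨D * (128 * (C0 + 2) ^ 5), 5 * κ0 + 1, ?_⟩
  intro a b ha hb hab N hN F hF
  obtain ⟨w, hw⟩ : ∃ w, w = (a * b).primeFactors.card := ⟨_, rfl⟩
  obtain ⟨L, hL⟩ : ∃ L, L = Nat.log 2 (a * b * N) + 1 := ⟨_, rfl⟩
  rw [← hw, ← hL]
  have hL1 : 1 ≤ L := by omega
  have hw1 : 1 ≤ w := by
    rw [hw, Nat.succ_le_iff, card_pos, Nat.nonempty_primeFactors]
    nlinarith
  obtain ⟨K, hK⟩ : ∃ K, K = (C0 + 2) * L ^ κ0 := ⟨_, rfl⟩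
  have hK2 : 2 ≤ K := by
    rw [hK]
    have : 1 ≤ L ^ κ0 := Nat.one_le_pow _ _ hL1
    nlinarith
  -- every solution has a small prime exponent
  have hex : ∀ x ∈ F, ∃ q c : ℕ, q.Prime ∧ q ≤ K ∧ 0 < x.1 ∧ 0 < x.2 ∧ Eqn a b x.1 x.2 c q := by
    intro x hx
    obtain ⟨h1, h2, h3, h4, c, k, hk, he⟩ := hF x hx
    have hqk := Nat.minFac_dvd k
    have hqp := Nat.minFac_prime (n := k) (by omega)
    have hck : c ^ k = (c ^ (k / k.minFac)) ^ k.minFac := by
      rw [← pow_mul, Nat.div_mul_cancel hqk]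
    obtain ⟨e, hE⟩ : ∃ e, e = c ^ (k / k.minFac) := ⟨_, rfl⟩
    rw [← hE] at hck
    have he' : Eqn a b x.1 x.2 e k.minFac := by
      unfold Eqn at he ⊢
      rw [hck] at he
      exact he
    rcases Nat.lt_or_ge e 2 with h5 | h5
    · have he1 : e = 1 := by
        rcases Nat.eq_zero_or_pos e with h6 | h6
        · exfalso
          rw [h6] at he'
          unfold Eqn at he'
          rw [zero_pow hqp.ne_zero] at he'
          have ha0 : 0 < a ^ x.1 := Nat.pow_pos (by omega)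
          have hco : Nat.Coprime (a ^ x.1) (b ^ x.2) := hab.pow _ _
          have h7 : a ^ x.1 = b ^ x.2 := by omega
          rw [← h7, Nat.coprime_self] at hco
          have h8 : 1 < a ^ x.1 := Nat.one_lt_pow (by omega) (by omega)
          omega
        · omega
      refine ⟨2, 1, Nat.prime_two, hK2, h1, h3, ?_⟩
      rw [he1] at he'
      unfold Eqn at he' ⊢
      rw [one_pow] at he' ⊢
      exact he'
    · refine ⟨k.minFac, e, hqp, ?_, h1, h3, he'⟩
      have h6 := hqb a b N x.1 x.2 e k.minFac ha hb hab h1 h2 h3 h4 h5 hqp he'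
      rw [← hL] at h6
      rw [hK]
      exact h6.trans (Nat.mul_le_mul_right _ (by omega))
  choose! Q hQ using hex
  -- the count for one prime
  have hone : ∀ q ∈ range (K + 1), (F.filter (fun x => Q x = q)).card ≤
      4 * (D ^ w * K ^ 4 * L) := by
    intro q hq
    rw [mem_range] at hq
    by_cases hqp : q.Prime
    · have hbd : ∀ (a' b' : ℕ) (τ : ℤ), 2 ≤ a' → 2 ≤ b' → Nat.Coprime a' b' →
          (a' * b') = a * b → (τ = 1 ∨ τ = -1) → ∀ (G : Finset (ℕ × ℕ)),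
          (∀ x ∈ G, x.1 ≤ N ∧ ∃ c, Rep a' b' q τ x.1 x.2 c) → G.card ≤ D ^ w * K ^ 4 * L := by
        intro a' b' τ ha' hb' hab' hmul hτ G hG
        have h1 := hD a' b' q τ ha' hb' hab' hτ hqp N hN G hG
        rw [hmul, ← hw, ← hL] at h1
        refine h1.trans (Nat.mul_le_mul_right _ (Nat.mul_le_mul_left _
          (Nat.pow_le_pow_left (by omega) _)))
      have hsw : ∀ G : Finset (ℕ × ℕ), (G.image Prod.swap).card = G.card := fun G =>
        card_image_of_injective _ Prod.swap_injective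
      -- four classes
      have hcov : F.filter (fun x => Q x = q) ⊆
          (F.filter (fun x => ∃ c, Rep a b q 1 x.1 x.2 c)) ∪
          ((F.filter (fun x => ∃ c, Rep a b q (-1) x.1 x.2 c)) ∪
          ((F.filter (fun x => ∃ c, Rep b a q 1 x.2 x.1 c)) ∪
          (F.filter (fun x => ∃ c, Rep b a q (-1) x.2 x.1 c)))) := by
        intro x hx
        rw [mem_filter] at hx
        obtain ⟨c, h1, h2, h3, h4, h5⟩ := hQ x hx.1
        rw [hx.2] at h5
        simp only [mem_union, mem_filter]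
        have hco : Nat.Coprime (a ^ x.1) (b ^ x.2) := hab.pow _ _
        have hne : a ^ x.1 ≠ b ^ x.2 := by
          intro h7
          rw [← h7, Nat.coprime_self] at hco
          have h8 : 1 < a ^ x.1 := Nat.one_lt_pow (by omega) (by omega)
          omega
        rcases h5 with h5 | h5 | h5
        · have h6 : (a : ℤ) ^ x.1 + (b : ℤ) ^ x.2 = (c : ℤ) ^ q := by exact_mod_cast h5
          rcases lt_or_gt_of_ne hne with h7 | h7
          · right; right; left
            exact ⟨hx.1, c, h4, h3, h7, by rw [one_mul]; linarith⟩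
          · left
            exact ⟨hx.1, c, h3, h4, h7, by rw [one_mul]; exact h6⟩
        · have h6 : (a : ℤ) ^ x.1 = (b : ℤ) ^ x.2 + (c : ℤ) ^ q := by exact_mod_cast h5
          right; left
          exact ⟨hx.1, c, h3, h4, by omega, by linarith⟩
        · have h6 : (b : ℤ) ^ x.2 = (a : ℤ) ^ x.1 + (c : ℤ) ^ q := by exact_mod_cast h5
          right; right; right
          exact ⟨hx.1, c, h4, h3, by omega, by linarith⟩
      have g1 := hbd a b 1 ha hb hab rfl (Or.inl rfl)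
        (F.filter (fun x => ∃ c, Rep a b q 1 x.1 x.2 c)) (by
          intro x hx
          rw [mem_filter] at hx
          exact ⟨(hF x hx.1).2.1, hx.2⟩)
      have g2 := hbd a b (-1) ha hb hab rfl (Or.inr rfl)
        (F.filter (fun x => ∃ c, Rep a b q (-1) x.1 x.2 c)) (by
          intro x hx
          rw [mem_filter] at hx
          exact ⟨(hF x hx.1).2.1, hx.2⟩)
      have g3 := hbd b a 1 hb ha hab.symm (mul_comm b a) (Or.inl rfl)
        ((F.filter (fun x => ∃ c, Rep b a q 1 x.2 x.1 c)).image Prod.swap) (by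
          intro y hy
          rw [mem_image] at hy
          obtain ⟨x, hx, rfl⟩ := hy
          rw [mem_filter] at hx
          exact ⟨(hF x hx.1).2.2.2.1, hx.2⟩)
      have g4 := hbd b a (-1) hb ha hab.symm (mul_comm b a) (Or.inr rfl)
        ((F.filter (fun x => ∃ c, Rep b a q (-1) x.2 x.1 c)).image Prod.swap) (by
          intro y hy
          rw [mem_image] at hy
          obtain ⟨x, hx, rfl⟩ := hy
          rw [mem_filter] at hx
          exact ⟨(hF x hx.1).2.2.2.1, hx.2⟩)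
      rw [hsw] at g3 g4
      refine (card_le_card hcov).trans ((card_union_le _ _).trans ?_)
      have u1 := card_union_le (F.filter (fun x => ∃ c, Rep a b q (-1) x.1 x.2 c))
          ((F.filter (fun x => ∃ c, Rep b a q 1 x.2 x.1 c)) ∪
          (F.filter (fun x => ∃ c, Rep b a q (-1) x.2 x.1 c)))
      have u2 := card_union_le (F.filter (fun x => ∃ c, Rep b a q 1 x.2 x.1 c))
          (F.filter (fun x => ∃ c, Rep b a q (-1) x.2 x.1 c))
      omega
    · have h0 : F.filter (fun x => Q x = q) = ∅ := by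
        rw [filter_eq_empty_iff]
        intro x hx h1
        obtain ⟨c, h2, -⟩ := hQ x hx
        rw [h1] at h2
        exact hqp h2
      rw [h0, card_empty]
      exact Nat.zero_le _
  have hsum : F.card ≤ (K + 1) * (4 * (D ^ w * K ^ 4 * L)) := by
    rw [card_eq_sum_card_fiberwise (f := Q) (t := range (K + 1)) (by
      intro x hx
      obtain ⟨c, h1, h2, -⟩ := hQ x hx
      rw [mem_coe, mem_range]
      omega)]
    refine (sum_le_sum hone).trans ?_
    rw [sum_const, card_range, smul_eq_mul]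
  calc F.card ≤ (K + 1) * (4 * (D ^ w * K ^ 4 * L)) := hsum
    _ ≤ (2 * K) * (4 * (D ^ w * K ^ 4 * L)) := Nat.mul_le_mul_right _ (by omega)
    _ = D ^ w * (8 * K ^ 5 * L) := by ring
    _ = D ^ w * (8 * (C0 + 2) ^ 5 * L ^ (5 * κ0 + 1)) := by
        rw [hK, mul_pow, ← pow_mul, pow_succ L, mul_comm κ0 5]; ring
    _ ≤ D ^ w * ((128 * (C0 + 2) ^ 5) ^ w * L ^ (5 * κ0 + 1)) := by
        refine Nat.mul_le_mul_left _ (Nat.mul_le_mul_right _ ?_)
        refine le_trans (Nat.mul_le_mul_right _ (by norm_num)) (Nat.le_self_pow (by omega) _)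
    _ = (D * (128 * (C0 + 2) ^ 5)) ^ w * L ^ (5 * κ0 + 1) := by
        generalize 128 * (C0 + 2) ^ 5 = E
        rw [mul_pow, mul_assoc]

end Pool.Agent.R476.TC
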